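import Pool.Agent.Helper50.CE.Defs

/-! Basic facts on geodesic balls, continuity and integrability. -/

namespace Pool.Agent.Helper50.CE

open scoped ContDiff Topology NNReal
open Pool.Agent.Helper49.Ric Pool.Agent.Helper73.HB Pool.Agent.Helper50.CF MeasureTheory Filter

noncomputable section

variable {n : ℕ} {S V : ℝ} {u : (Fin n → ℝ) → ℝ} {x : Fin n → ℝ}

theorem isMetricOn_conf (hu : ContDiff ℝ ∞ u) : IsMetricOn Set.univ (conf u) := by
  have e : ∀ p i j, conf u p i j = Real.exp (2 * u p) * (1 : Matrix (Fin n) (Fin n) ℝ) i j :=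
    fun p i j => by simp [conf, Matrix.smul_apply]
  refine ⟨fun p _ i j => ?_, fun p _ i j => ?_, fun p _ v hv => ?_⟩
  · simp only [e]
    exact ((contDiff_const.mul hu).exp.mul contDiff_const).contDiffAt
  · rw [e, e]
    by_cases h : i = j
    · rw [h]
    · rw [Matrix.one_apply_ne h, Matrix.one_apply_ne (Ne.symm h)]
  · have h1 : ∑ i, ∑ j, conf u p i j * v i * v j = Real.exp (2 * u p) * ∑ i, v i ^ 2 := by
      rw [Finset.mul_sum]
      refine Finset.sum_congr rfl fun i _ => ?_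
      rw [Finset.sum_eq_single i]
      · rw [e, Matrix.one_apply_eq]
        ring
      · intro j _ hj
        rw [e, Matrix.one_apply_ne (Ne.symm hj)]
        ring
      · intro h
        exact absurd (Finset.mem_univ i) h
    rw [h1]
    refine mul_pos (Real.exp_pos _) ?_
    obtain ⟨i, hi⟩ := Function.ne_iff.mp hv
    have hi' : v i ≠ 0 := hi
    exact Finset.sum_pos' (fun i _ => sq_nonneg _) ⟨i, Finset.mem_univ i, by positivity⟩

theorem isOpen_GB (hu : ContDiff ℝ ∞ u) (x : Fin n → ℝ) (s : ℝ) : IsOpen (GB u x s) :=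
  isOpen_gball isOpen_univ (isMetricOn_conf hu)

theorem meas_GB (hu : ContDiff ℝ ∞ u) (x : Fin n → ℝ) (s : ℝ) : MeasurableSet (GB u x s) :=
  (isOpen_GB hu x s).measurableSet

theorem GB_mono {s t : ℝ} (h : s ≤ t) : GB u x s ⊆ GB u x t := gball_mono h

theorem cont_gr (hu : ContDiff ℝ ∞ u) : Continuous (gr u) :=
  continuous_iff_continuousAt.mpr fun _ => continuousAt_gr hu.contDiffAt

theorem cont_gs (hu : ContDiff ℝ ∞ u) : Continuous (gs u) :=
  continuous_iff_continuousAt.mpr fun _ => continuousAt_gs hu.contDiffAt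

theorem cont_exp (hu : ContDiff ℝ ∞ u) (a : ℝ) : Continuous (fun p => Real.exp (a * u p)) :=
  (continuous_const.mul hu.continuous).rexp

/-- a continuous function is integrable on subsets of a compact set -/
theorem int_on {f : (Fin n → ℝ) → ℝ} (hf : Continuous f) {K A : Set (Fin n → ℝ)}
    (hK : IsCompact K) (hA : A ⊆ K) : IntegrableOn f A :=
  (hf.continuousOn.integrableOn_compact hK).mono_set hA

/-- a geodesic ball with compact closure lies in a Euclidean ball -/
theorem CoreE.sub_B (h : CoreE n S V u x) : ∃ ρ : ℝ, 0 < ρ ∧ GB u x 5 ⊆ B n ρ := by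
  obtain ⟨K, hK, hs⟩ := h.cpt
  have hc : Continuous (fun p : Fin n → ℝ => ∑ i, p i ^ 2) := by fun_prop
  obtain ⟨M, hM⟩ := hK.exists_bound_of_continuousOn hc.continuousOn
  refine ⟨|M| + 1, by positivity, fun p hp => ?_⟩
  have h1 := hM p (hs hp)
  rw [Real.norm_eq_abs] at h1
  have h2 : ∑ i, p i ^ 2 ≤ |M| := (le_abs_self _).trans (h1.trans (le_abs_self M))
  show ∑ i, p i ^ 2 < (|M| + 1) ^ 2
  nlinarith [abs_nonneg M]

theorem CoreE.int (h : CoreE n S V u x) {f : (Fin n → ℝ) → ℝ} (hf : Continuous f)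
    {A : Set (Fin n → ℝ)} (hA : A ⊆ GB u x 5) : IntegrableOn f A := by
  obtain ⟨K, hK, hs⟩ := h.cpt
  exact int_on hf hK (hA.trans hs)

theorem CoreE.cont_e (h : CoreE n S V u x) (a : ℝ) : Continuous (fun p => Real.exp (a * u p)) :=
  cont_exp h.flat.smooth a

theorem ev_nonneg (u : (Fin n → ℝ) → ℝ) (A : Set (Fin n → ℝ)) : 0 ≤ ev u A :=
  integral_nonneg fun _ => (Real.exp_pos _).le

theorem CoreE.ev_mono (h : CoreE n S V u x) {A A' : Set (Fin n → ℝ)} (hA : A ⊆ A')
    (hA' : A' ⊆ GB u x 5) : ev u A ≤ ev u A' :=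
  setIntegral_mono_set (h.int (h.cont_e n) hA')
    (Eventually.of_forall fun _ => (Real.exp_pos _).le) (Eventually.of_forall hA)

/-- the superlevel sets of `σ u` are measurable -/
theorem meas_lev (hu : ContDiff ℝ ∞ u) (σ k : ℝ) : MeasurableSet {p | k ≤ σ * u p} :=
  (isClosed_le continuous_const (continuous_const.mul hu.continuous)).measurableSet

theorem meas_lev2 (hu : ContDiff ℝ ∞ u) (σ k : ℝ) : MeasurableSet {p | σ * u p ≤ k} :=
  (isClosed_le (continuous_const.mul hu.continuous) continuous_const).measurableSet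

/-- `u` is bounded on the geodesic ball -/
theorem CoreE.bdd (h : CoreE n S V u x) : ∃ M : ℝ, 0 ≤ M ∧ ∀ p ∈ GB u x 5, |u p| ≤ M := by
  obtain ⟨K, hK, hs⟩ := h.cpt
  obtain ⟨M, hM⟩ := hK.exists_bound_of_continuousOn h.flat.smooth.continuous.continuousOn
  refine ⟨|M|, abs_nonneg M, fun p hp => ?_⟩
  have h1 := hM p (hs hp)
  rw [Real.norm_eq_abs] at h1
  exact h1.trans (le_abs_self M)

/-- the Lipschitz cutoff between two geodesic balls -/
theorem CoreE.cut (h : CoreE n S V u x) {r₁ r₂ : ℝ} (h0 : 0 < r₁) (h1 : r₁ < r₂) (h2 : r₂ < 5) :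
    ∃ (η : (Fin n → ℝ) → ℝ) (L : ℝ≥0), LipschitzWith L η ∧ HasCompactSupport η ∧
      (∀ p, 0 ≤ η p) ∧ (∀ p, η p ≤ 1) ∧ (∀ p ∈ GB u x r₁, η p = 1) ∧
      (∀ p, p ∉ GB u x r₂ → η p = 0) ∧
      ∀ᵐ p, gs η p ≤ Real.exp (2 * u p) * (1 / (r₂ - r₁)) ^ 2 := by
  obtain ⟨K, hK, hs⟩ := h.cpt
  obtain ⟨η, L, a1, a2, -, a4, a5, a6, a7, a8⟩ := Pool.Agent.Helper73.HB.exists_cutoff
    (U := Set.univ) (G := conf u) (x := x) isOpen_univ (isMetricOn_conf h.flat.smooth) hK
    (Set.subset_univ K) hs h0 h1 h2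
  refine ⟨η, L, a1, a2, a4, a5, a6, a7, ?_⟩
  filter_upwards [a8] with p hp
  have h3 := hp (Set.mem_univ p)
  have e1 : ∑ i, ∑ j, (conf u p)⁻¹ i j * pd i η p * pd j η p =
      Real.exp (-(2 * u p)) * gs η p := by
    rw [inv_conf]
    unfold gs
    rw [Finset.mul_sum]
    refine Finset.sum_congr rfl fun i _ => ?_
    rw [Finset.sum_eq_single i]
    · rw [Matrix.smul_apply, Matrix.one_apply_eq, smul_eq_mul]
      ring
    · intro j _ hj
      rw [Matrix.smul_apply, Matrix.one_apply_ne (Ne.symm hj), smul_eq_mul]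
      ring
    · intro h
      exact absurd (Finset.mem_univ i) h
  rw [e1] at h3
  have h4 : gs η p = Real.exp (2 * u p) * (Real.exp (-(2 * u p)) * gs η p) := by
    rw [← mul_assoc, ← Real.exp_add]
    simp
  rw [h4]
  exact mul_le_mul_of_nonneg_left h3 (Real.exp_pos _).le

/-- `GB` is `gball` for the volume `gvol` -/
theorem gvol_eq (A : Set (Fin n → ℝ)) : gvol (conf u) A = ev u A := by
  unfold gvol ev
  simp only [dens_conf]

end

end Pool.Agent.Helper50.CE
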