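import Pool.Agent.Helper50.CF.Conf
import Pool.Agent.Helper50.CF.Cut
import Pool.Agent.Helper73.HB.Cut

/-!
# Conformally flat metrics on `ℝⁿ` with `Ric ≥ 0`: geodesic balls

`g = e^{2u}|dx|²` on `ℝⁿ`, `Ric_g ≥ 0`.  `GB u x s` is the open geodesic ball, `ev u A` the volume
`∫_A e^{nu}`.  `CoreE` collects the hypotheses in terms of `u`.
-/

namespace Pool.Agent.Helper50.CE

open scoped ContDiff Topology NNReal
open Pool.Agent.Helper49.Ric Pool.Agent.Helper73.HB Pool.Agent.Helper50.CF MeasureTheory Filter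

noncomputable section

variable {n : ℕ}

/-- the open geodesic ball of the metric `conf u` on `ℝⁿ` -/
def GB (u : (Fin n → ℝ) → ℝ) (x : Fin n → ℝ) (s : ℝ) : Set (Fin n → ℝ) :=
  gball Set.univ (conf u) x s

/-- the volume of `A` for the metric `conf u` -/
def ev (u : (Fin n → ℝ) → ℝ) (A : Set (Fin n → ℝ)) : ℝ := ∫ p in A, Real.exp (n * u p)

/-- The Sobolev–Poincaré inequality of the Riemannian metric `G` on the pair `A ⊆ A'`:
`(∫_A |f - c|^{2n/(n-2)} dv)^{(n-2)/n} ≤ S ∫_{A'} |∇f|² dv` for some real `c`, for every Lipschitz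
function `f` with compact support in `ℝⁿ`. -/
def SobPoinPair (G : (Fin n → ℝ) → Matrix (Fin n) (Fin n) ℝ) (A A' : Set (Fin n → ℝ))
    (S : ℝ) : Prop :=
  ∀ (f : (Fin n → ℝ) → ℝ) (L : ℝ≥0), LipschitzWith L f → HasCompactSupport f → ∃ c : ℝ,
    (∫ p in A, |f p - c| ^ (2 * n / (n - 2) : ℝ) * Real.sqrt (G p).det) ^ ((n - 2) / n : ℝ) ≤
      S * ∫ p in A', (∑ i, ∑ j, (G p)⁻¹ i j * pd i f p * pd j f p) * Real.sqrt (G p).det

/-- the pointwise inequalities which express `Ric ≥ 0` -/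
structure Flat (n : ℕ) (u : (Fin n → ℝ) → ℝ) : Prop where
  hn : 3 ≤ n
  smooth : ContDiff ℝ ∞ u
  P1 : ∀ p, lp u p ≤ -(((n : ℝ) - 2) / 2) * gs u p
  P2 : ∀ p, ((n : ℝ) - 2) * hq u p + lp u p * gs u p ≤ 0

/-- the hypotheses of the theorem in terms of `u` -/
structure CoreE (n : ℕ) (S V : ℝ) (u : (Fin n → ℝ) → ℝ) (x : Fin n → ℝ) : Prop where
  flat : Flat n u
  hS : 1 ≤ S
  hV : 1 ≤ V
  cpt : ∃ K : Set (Fin n → ℝ), IsCompact K ∧ GB u x 5 ⊆ K
  lo : 1 / V ≤ ev u (GB u x 2)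
  up : ev u (GB u x 4) ≤ V
  sp : ∀ (f : (Fin n → ℝ) → ℝ) (L : ℝ≥0), LipschitzWith L f → HasCompactSupport f → ∃ c : ℝ,
    (∫ p in GB u x 2, |f p - c| ^ (2 * n / (n - 2) : ℝ) * Real.exp (n * u p)) ^
      ((n - 2) / n : ℝ) ≤ S * ∫ p in GB u x 4, gs f p * Real.exp ((n - 2) * u p)

end

end Pool.Agent.Helper50.CE
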