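import Pool.Agent.Helper50.CE.HolderE

/-! # CE-8: the range of `u` between the two small level sets is bounded

PROOF. Let `ε' = min ε (1/(4V))`. `u` is bounded on `GB 5` (`CoreE.bdd`), so there is a least integer
`i₀` with `ev u (GB 2 ∩ {i₀ ≤ u}) ≤ ε'` (it holds for large `i`, the set is empty; it fails for very
negative `i`, since `ev u (GB 2) ≥ 1/V > ε'`) and a largest integer `i₁` with
`ev u (GB 2 ∩ {u ≤ i₁}) ≤ ε'`. Put `k₀ = i₀`, `k₁ = i₁`, `b = k₁ + 1`, `L = k₀ - 1 - b`. If `L ≤ 1`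
then `k₀ - k₁ ≤ 3`. Otherwise let `f = χ · smoothTransition ((u - b)/L)`, `χ` smooth with compact
support, `χ = 1` near a compact set containing `GB 5` (`exists_cut`): `f` is smooth with compact
support, so Lipschitz. On `GB 4` (open): `gs f = τ'² L⁻² gs u`, zero off `{b ≤ u ≤ b + L}`, so by
`exists_holderE` `∫_{GB 4} gs f e^{(n-2)u} ≤ c² L⁻² (C L)^(2/n) V^α`. `f = 1` on
`GB 2 ∩ {k₀ - 1 ≤ u}`, `f = 0` on `GB 2 ∩ {u ≤ b}`, both of volume `> ε'`; with the constant `c₀` of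
`h.sp`, `|1 - c₀| ≥ 1/2` or `|c₀| ≥ 1/2`, so the left side of `h.sp` is
`≥ (2^(-q) ε')^α = ε'^α/4`. Hence `L ≤ L^(2-2/n) ≤ 4 S c² C^(2/n) V^α/ε'^α`. -/

namespace Pool.Agent.Helper50.CE

open scoped ContDiff Topology NNReal
open Pool.Agent.Helper49.Ric Pool.Agent.Helper73.HB Pool.Agent.Helper50.CF MeasureTheory Filter

noncomputable section

variable {n : ℕ} {S V : ℝ} {u : (Fin n → ℝ) → ℝ} {x : Fin n → ℝ}

namespace Lev

/-- the step function -/
def ta (k h t : ℝ) : ℝ := Real.smoothTransition ((t - k) / h)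

theorem ta_smooth (k h : ℝ) : ContDiff ℝ ∞ (ta k h) := by
  unfold ta
  exact Real.smoothTransition.contDiff.comp ((contDiff_id.sub contDiff_const).div_const h)

theorem ta_deriv (k h t : ℝ) :
    HasDerivAt (ta k h) (deriv Real.smoothTransition ((t - k) / h) * (1 / h)) t := by
  have h1 : HasDerivAt (fun t : ℝ => (t - k) / h) (1 / h) t :=
    ((hasDerivAt_id t).sub_const k).div_const h
  have h2 : DifferentiableAt ℝ Real.smoothTransition ((t - k) / h) :=
    (Real.smoothTransition.contDiff (n := 1)).differentiable (by norm_num) _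
  exact h2.hasDerivAt.comp t h1

theorem dst_gt {t : ℝ} (ht : 1 < t) : deriv Real.smoothTransition t = 0 := by
  have h : Real.smoothTransition =ᶠ[𝓝 t] fun _ => (1 : ℝ) := by
    filter_upwards [lt_mem_nhds ht] with y hy
    exact Real.smoothTransition.one_of_one_le hy.le
  rw [h.deriv_eq, deriv_const]

theorem dst_lt {t : ℝ} (ht : t < 0) : deriv Real.smoothTransition t = 0 := by
  have h : Real.smoothTransition =ᶠ[𝓝 t] fun _ => (0 : ℝ) := by
    filter_upwards [gt_mem_nhds ht] with y hy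
    exact Real.smoothTransition.zero_of_nonpos hy.le
  rw [h.deriv_eq, deriv_const]

theorem pd_comp {p : Fin n → ℝ} {τ : ℝ → ℝ} {t' : ℝ} (hτ : HasDerivAt τ t' (u p))
    (hu : DifferentiableAt ℝ u p) (i : Fin n) : pd i (fun q => τ (u q)) p = t' * pd i u p := by
  have H : HasFDerivAt (fun q => τ (u q)) (t' • fderiv ℝ u p) p :=
    hτ.comp_hasFDerivAt p hu.hasFDerivAt
  rw [pd_eq H.differentiableAt, pd_eq hu, H.fderiv]
  rfl

/-- the least integer level -/
theorem least (h : CoreE n S V u x) {e : ℝ} (he : 0 < e) (heV : e < 1 / V) {σ : ℝ}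
    (hσ : σ = 1 ∨ σ = -1) : ∃ i : ℤ, ev u (GB u x 2 ∩ {p | (i : ℝ) ≤ σ * u p}) ≤ e ∧
      e < ev u (GB u x 2 ∩ {p | (i : ℝ) - 1 ≤ σ * u p}) := by
  obtain ⟨M, hM0, hM⟩ := h.bdd
  have h25 : GB u x 2 ⊆ GB u x 5 := GB_mono (by norm_num)
  have hM' : ∀ p ∈ GB u x 2, |σ * u p| ≤ M := by
    intro p hp
    have h1 := hM p (h25 hp)
    rcases hσ with rfl | rfl
    · rwa [one_mul]
    · rwa [neg_one_mul, abs_neg]
  obtain ⟨N, hN⟩ := exists_nat_gt M
  have hex : ∃ i : ℤ, ev u (GB u x 2 ∩ {p | (i : ℝ) ≤ σ * u p}) ≤ e := by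
    refine ⟨(N : ℤ), ?_⟩
    have hem : GB u x 2 ∩ {p | (((N : ℤ) : ℝ)) ≤ σ * u p} = ∅ := by
      ext p
      simp only [Set.mem_inter_iff, Set.mem_ofPred_eq, Set.mem_empty_iff_false, iff_false, not_and,
        not_le]
      intro hp
      have h1 := (le_abs_self _).trans (hM' p hp)
      push_cast
      linarith
    rw [hem]
    unfold ev
    rw [Measure.restrict_empty, integral_zero_measure]
    exact he.le
  have hlow : ∃ b : ℤ, ∀ i : ℤ, ev u (GB u x 2 ∩ {p | (i : ℝ) ≤ σ * u p}) ≤ e → b ≤ i := by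
    refine ⟨-(N : ℤ), fun i hi => ?_⟩
    by_contra hcon
    have h1 : i < -(N : ℤ) := not_le.mp hcon
    have h2 : (i : ℝ) < -(N : ℝ) := by exact_mod_cast h1
    have hall : GB u x 2 ∩ {p | (i : ℝ) ≤ σ * u p} = GB u x 2 := by
      refine Set.inter_eq_left.mpr fun p hp => ?_
      have h3 := neg_le_of_abs_le (hM' p hp)
      show (i : ℝ) ≤ σ * u p
      linarith
    rw [hall] at hi
    have := h.lo
    linarith
  obtain ⟨i, hi, hmin⟩ := Int.exists_least_of_bdd hlow hex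
  refine ⟨i, hi, ?_⟩
  by_contra hcon
  have h1 : ev u (GB u x 2 ∩ {p | ((i - 1 : ℤ) : ℝ) ≤ σ * u p}) ≤ e := by
    push_cast
    exact not_lt.mp hcon
  have := hmin _ h1
  omega

/-- the distance of two levels whose super- and sublevel sets are large -/
theorem gap {c C : ℝ} (hc : ∀ t : ℝ, |deriv Real.smoothTransition t| ≤ c) (hc1 : 1 ≤ c)
    (hC1 : 1 ≤ C) (h : CoreE n S V u x)
    (hC : ∀ k h : ℝ, 0 < h → ∫ p in GB u x 4 ∩ {p | k ≤ (1 : ℝ) * u p ∧ (1 : ℝ) * u p ≤ k + h},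
      gs u p * Real.exp ((n - 2) * u p) ≤ (C * h) ^ (2 / n : ℝ) *
        ev u (GB u x 4 ∩ {p | k ≤ (1 : ℝ) * u p ∧ (1 : ℝ) * u p ≤ k + h}) ^ ((n - 2) / n : ℝ))
    {e a b : ℝ} (he : 0 < e) (hab : 1 < a - b)
    (h1 : e < ev u (GB u x 2 ∩ {p | a ≤ (1 : ℝ) * u p}))
    (h2 : e < ev u (GB u x 2 ∩ {p | -b ≤ (-1 : ℝ) * u p})) :
    a - b ≤ 4 * S * c ^ 2 * C ^ (2 / n : ℝ) * V ^ ((n - 2) / n : ℝ) / e ^ ((n - 2) / n : ℝ) := by
  have hn : (3 : ℝ) ≤ n := by exact_mod_cast h.flat.hn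
  have hn0 : (0 : ℝ) < n := by linarith
  have hS := h.hS
  have hV := h.hV
  set L : ℝ := a - b with hL
  have hL0 : 0 < L := by linarith
  have hu := h.flat.smooth
  have h25 : GB u x 2 ⊆ GB u x 5 := GB_mono (by norm_num)
  have h45 : GB u x 4 ⊆ GB u x 5 := GB_mono (by norm_num)
  -- the test function
  obtain ⟨ρ, hρ0, hρ⟩ := h.sub_B
  obtain ⟨c2, -, hcut⟩ := Pool.Agent.Helper50.CF.exists_cutoff
  obtain ⟨φ, hφ, hφc, -, -, -, hφe, -⟩ := hcut n ρ (ρ + 1) hρ0 (by linarith)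
  have hφ1 : ∀ p ∈ GB u x 5, φ p = 1 := fun p hp => hφe p (B_subset_Bc ρ (hρ hp))
  have hτs : ContDiff ℝ ∞ (fun q => ta b L (u q)) := (ta_smooth b L).comp hu
  set f : (Fin n → ℝ) → ℝ := fun p => φ p * ta b L (u p) with hf
  have hfs : ContDiff ℝ ∞ f := hφ.mul hτs
  have hfc : HasCompactSupport f := hφc.mul_right
  obtain ⟨D, hD⟩ := lip_of hfs hfc
  obtain ⟨c₀, hsp⟩ := h.sp f D hD hfc
  -- the gradient
  have hpd : ∀ p ∈ GB u x 4, ∀ i, pd i f p =
      (deriv Real.smoothTransition ((u p - b) / L) * (1 / L)) * pd i u p := by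
    intro p hp i
    have hev : f =ᶠ[𝓝 p] fun q => ta b L (u q) := by
      filter_upwards [(isOpen_GB hu x 5).mem_nhds (h45 hp)] with q hq
      rw [hf]
      simp only
      rw [hφ1 q hq, one_mul]
    rw [pd_congr hev i]
    exact pd_comp (ta_deriv b L (u p)) (hu.differentiable (by simp) p) i
  set E : Set (Fin n → ℝ) := {p | b ≤ (1 : ℝ) * u p ∧ (1 : ℝ) * u p ≤ b + L} with hE
  have hEm : MeasurableSet E := (meas_lev hu 1 b).inter (meas_lev2 hu 1 (b + L))
  have hgs : ∀ p ∈ GB u x 4, gs f p ≤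
      E.indicator (fun p => (c / L) ^ 2 * gs u p) p := by
    intro p hp
    have e1 : gs f p = (deriv Real.smoothTransition ((u p - b) / L) * (1 / L)) ^ 2 * gs u p := by
      unfold gs
      rw [Finset.mul_sum]
      refine Finset.sum_congr rfl fun i _ => ?_
      rw [hpd p hp i]
      ring
    by_cases hpE : p ∈ E
    · rw [Set.indicator_of_mem hpE, e1]
      refine mul_le_mul_of_nonneg_right ?_ (gs_nonneg u p)
      have h3 := pow_le_pow_left₀ (abs_nonneg _) (hc ((u p - b) / L)) 2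
      calc (deriv Real.smoothTransition ((u p - b) / L) * (1 / L)) ^ 2
          = |deriv Real.smoothTransition ((u p - b) / L)| ^ 2 * (1 / L) ^ 2 := by
            rw [mul_pow, sq_abs]
        _ ≤ c ^ 2 * (1 / L) ^ 2 := mul_le_mul_of_nonneg_right h3 (sq_nonneg _)
        _ = (c / L) ^ 2 := by ring
    · rw [Set.indicator_of_notMem hpE, e1]
      have h3 : u p < b ∨ b + L < u p := by
        by_contra hcon
        rw [not_or, not_lt, not_lt] at hcon
        refine hpE ⟨?_, ?_⟩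
        · rw [one_mul]; exact hcon.1
        · rw [one_mul]; exact hcon.2
      rcases h3 with h3 | h3
      · rw [dst_lt (div_neg_of_neg_of_pos (by linarith) hL0)]
        simp
      · rw [dst_gt (by rw [lt_div_iff₀ hL0]; linarith)]
        simp
  -- the right side
  have hFi : IntegrableOn (fun p => gs f p * Real.exp ((n - 2) * u p)) (GB u x 4) :=
    h.int ((cont_gs hfs).mul (h.cont_e _)) h45
  have hGi : IntegrableOn (fun p => (c / L) ^ 2 * (gs u p * Real.exp ((n - 2) * u p))) (GB u x 4) :=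
    h.int (continuous_const.mul ((cont_gs hu).mul (h.cont_e _))) h45
  have hR1 : ∫ p in GB u x 4, gs f p * Real.exp ((n - 2) * u p) ≤
      (c / L) ^ 2 * ∫ p in GB u x 4 ∩ E, gs u p * Real.exp ((n - 2) * u p) := by
    rw [← integral_const_mul, ← setIntegral_indicator hEm]
    refine setIntegral_mono_on hFi (hGi.indicator hEm) (meas_GB hu x 4) fun p hp => ?_
    have h3 := mul_le_mul_of_nonneg_right (hgs p hp) (Real.exp_pos ((n - 2) * u p)).le
    refine h3.trans (le_of_eq ?_)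
    by_cases hpE : p ∈ E
    · rw [Set.indicator_of_mem hpE, Set.indicator_of_mem hpE]
      ring
    · rw [Set.indicator_of_notMem hpE, Set.indicator_of_notMem hpE, zero_mul]
  have hevE : ev u (GB u x 4 ∩ E) ≤ V := (h.ev_mono Set.inter_subset_left h45).trans h.up
  have hα : (0 : ℝ) ≤ (n - 2) / n := div_nonneg (by linarith) hn0.le
  have hR2 : ∫ p in GB u x 4 ∩ E, gs u p * Real.exp ((n - 2) * u p) ≤
      (C * L) ^ (2 / n : ℝ) * V ^ ((n - 2) / n : ℝ) := by
    refine (hC b L hL0).trans ?_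
    refine mul_le_mul_of_nonneg_left ?_ (Real.rpow_nonneg (by positivity) _)
    exact Real.rpow_le_rpow (ev_nonneg _ _) hevE hα
  -- the left side
  have hq : (0 : ℝ) ≤ 2 * n / (n - 2) := div_nonneg (by linarith) (by linarith)
  have hcont : Continuous fun p => |f p - c₀| ^ (2 * n / (n - 2) : ℝ) * Real.exp (n * u p) :=
    (((hfs.continuous.sub continuous_const).abs).rpow_const fun _ => Or.inr hq).mul (h.cont_e n)
  have hlow : ∀ A : Set (Fin n → ℝ), MeasurableSet A → A ⊆ GB u x 2 → e < ev u A →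
      (∀ p ∈ A, 1 / 2 ≤ |f p - c₀|) →
      (1 / 2 : ℝ) ^ (2 * n / (n - 2) : ℝ) * e ≤
        ∫ p in GB u x 2, |f p - c₀| ^ (2 * n / (n - 2) : ℝ) * Real.exp (n * u p) := by
    intro A hAm hA heA hA2
    calc (1 / 2 : ℝ) ^ (2 * n / (n - 2) : ℝ) * e
        ≤ (1 / 2 : ℝ) ^ (2 * n / (n - 2) : ℝ) * ev u A :=
          mul_le_mul_of_nonneg_left heA.le (by positivity)
      _ = ∫ p in A, (1 / 2 : ℝ) ^ (2 * n / (n - 2) : ℝ) * Real.exp (n * u p) := by
          unfold ev
          rw [integral_const_mul]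
      _ ≤ ∫ p in A, |f p - c₀| ^ (2 * n / (n - 2) : ℝ) * Real.exp (n * u p) := by
          refine setIntegral_mono_on (h.int (continuous_const.mul (h.cont_e n)) (hA.trans h25))
            (h.int hcont (hA.trans h25)) hAm fun p hp => ?_
          exact mul_le_mul_of_nonneg_right (Real.rpow_le_rpow (by norm_num) (hA2 p hp) hq)
            (Real.exp_pos _).le
      _ ≤ _ := setIntegral_mono_set (h.int hcont h25)
          (Eventually.of_forall fun p => by positivity) (Eventually.of_forall hA)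
  have hLHS : (1 / 2 : ℝ) ^ (2 * n / (n - 2) : ℝ) * e ≤
      ∫ p in GB u x 2, |f p - c₀| ^ (2 * n / (n - 2) : ℝ) * Real.exp (n * u p) := by
    rcases le_total (1 / 2) |c₀| with h3 | h3
    · refine hlow _ ((meas_GB hu x 2).inter (meas_lev hu (-1) (-b))) Set.inter_subset_left h2 ?_
      rintro p ⟨hp1, hp2⟩
      have hp3 : u p ≤ b := by
        have : -b ≤ (-1 : ℝ) * u p := hp2
        linarith
      have h4 : f p = 0 := by
        rw [hf]
        simp only
        unfold ta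
        rw [Real.smoothTransition.zero_of_nonpos
          (div_nonpos_of_nonpos_of_nonneg (by linarith) hL0.le), mul_zero]
      rw [h4, zero_sub, abs_neg]
      exact h3
    · refine hlow _ ((meas_GB hu x 2).inter (meas_lev hu 1 a)) Set.inter_subset_left h1 ?_
      rintro p ⟨hp1, hp2⟩
      have hp3 : a ≤ u p := by
        have : a ≤ (1 : ℝ) * u p := hp2
        linarith
      have h4 : f p = 1 := by
        rw [hf]
        simp only
        unfold ta
        rw [hφ1 p (h25 hp1), one_mul]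
        refine Real.smoothTransition.one_of_one_le ?_
        rw [le_div_iff₀ hL0]
        linarith
      rw [h4]
      have h5 := le_abs_self (1 - c₀)
      have h6 := (le_abs_self c₀).trans h3
      linarith
  have hL2 : e ^ ((n - 2) / n : ℝ) / 4 ≤
      (∫ p in GB u x 2, |f p - c₀| ^ (2 * n / (n - 2) : ℝ) * Real.exp (n * u p)) ^
        ((n - 2) / n : ℝ) := by
    refine le_trans (le_of_eq ?_) (Real.rpow_le_rpow (by positivity) hLHS hα)
    rw [Real.mul_rpow (by positivity) he.le, ← Real.rpow_mul (by norm_num)]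
    have h3 : (2 * n / (n - 2) : ℝ) * ((n - 2) / n) = 2 := by
      have : (n : ℝ) - 2 ≠ 0 := by linarith
      field_simp
    rw [h3, Real.rpow_two]
    ring
  -- conclusion
  have he' : 0 < e ^ ((n - 2) / n : ℝ) := Real.rpow_pos_of_pos he _
  have hmain : e ^ ((n - 2) / n : ℝ) / 4 ≤
      S * ((c / L) ^ 2 * ((C * L) ^ (2 / n : ℝ) * V ^ ((n - 2) / n : ℝ))) := by
    refine hL2.trans (hsp.trans ?_)
    refine mul_le_mul_of_nonneg_left ?_ (by linarith)
    exact hR1.trans (mul_le_mul_of_nonneg_left hR2 (sq_nonneg _))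
  have hLn : L ^ (2 / n : ℝ) ≤ L := by
    calc L ^ (2 / n : ℝ) ≤ L ^ (1 : ℝ) := by
          refine Real.rpow_le_rpow_of_exponent_le hab.le ?_
          rw [div_le_one hn0]
          linarith
      _ = L := Real.rpow_one L
  rw [le_div_iff₀ he']
  have hCL : (C * L) ^ (2 / n : ℝ) = C ^ (2 / n : ℝ) * L ^ (2 / n : ℝ) :=
    Real.mul_rpow (by linarith) hL0.le
  rw [hCL] at hmain
  have hCn : 0 < C ^ (2 / n : ℝ) := Real.rpow_pos_of_pos (by linarith) _
  have hVn : 0 < V ^ ((n - 2) / n : ℝ) := Real.rpow_pos_of_pos (by linarith) _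
  have h5 : S * ((c / L) ^ 2 * (C ^ (2 / n : ℝ) * L ^ (2 / n : ℝ) * V ^ ((n - 2) / n : ℝ))) ≤
      S * ((c / L) ^ 2 * (C ^ (2 / n : ℝ) * L * V ^ ((n - 2) / n : ℝ))) := by
    have : 0 ≤ S := by linarith
    gcongr
  have h6 : S * ((c / L) ^ 2 * (C ^ (2 / n : ℝ) * L * V ^ ((n - 2) / n : ℝ))) =
      S * c ^ 2 * C ^ (2 / n : ℝ) * V ^ ((n - 2) / n : ℝ) / L := by
    field_simp
  have h7 := hmain.trans (h5.trans (le_of_eq h6))
  rw [le_div_iff₀ hL0] at h7
  linarith

end Lev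

theorem exists_levels (n : ℕ) (S V ε : ℝ) (hε : 0 < ε) : ∃ T : ℝ, 1 ≤ T ∧
    ∀ {u : (Fin n → ℝ) → ℝ} {x : Fin n → ℝ}, CoreE n S V u x →
      ∃ k₀ k₁ : ℝ, k₀ - k₁ ≤ T ∧
        ev u (GB u x 2 ∩ {p | k₀ ≤ (1 : ℝ) * u p}) ≤ min ε (1 / (4 * V)) ∧
        ev u (GB u x 2 ∩ {p | -k₁ ≤ (-1 : ℝ) * u p}) ≤ min ε (1 / (4 * V)) := by
  obtain ⟨c, hc1, hc⟩ := exists_step
  obtain ⟨C, hC1, hC⟩ := exists_holderE n
  set e : ℝ := min ε (1 / (4 * V)) with he
  refine ⟨max 3 (4 * S * c ^ 2 * C ^ (2 / n : ℝ) * V ^ ((n - 2) / n : ℝ) /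
    e ^ ((n - 2) / n : ℝ) + 2), le_trans (by norm_num) (le_max_left _ _), fun {u x} h => ?_⟩
  have hV := h.hV
  have he0 : 0 < e := lt_min hε (by positivity)
  have heV : e < 1 / V := by
    refine (min_le_right _ _).trans_lt ?_
    exact one_div_lt_one_div_of_lt (by linarith) (by linarith)
  obtain ⟨i, hi1, hi2⟩ := Lev.least h he0 heV (Or.inl rfl : (1 : ℝ) = 1 ∨ (1 : ℝ) = -1)
  obtain ⟨j, hj1, hj2⟩ := Lev.least h he0 heV (Or.inr rfl : (-1 : ℝ) = 1 ∨ (-1 : ℝ) = -1)
  refine ⟨i, -j, ?_, hi1, by rw [neg_neg]; exact hj1⟩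
  rcases le_or_gt ((i : ℝ) - 1 - (1 - j)) 1 with h1 | h1
  · refine le_trans ?_ (le_max_left _ _)
    linarith
  · refine le_trans ?_ (le_max_right _ _)
    have h2 := Lev.gap hc hc1 hC1 h
      (fun k l hl => hC h (Or.inl rfl) (GB_mono (by norm_num)) (meas_GB h.flat.smooth x 4) k l hl)
      he0 h1 hi2 (by rw [neg_sub]; exact hj2)
    linarith

end

end Pool.Agent.Helper50.CE
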