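import Pool.Agent.Helper50.CE.DecayE
import Pool.Agent.Helper50.CE.LevelsE

/-! # CE-9: the bound for `∫ |∇u|² e^{(n-2)u}` on `GB u x (3/2)`

PROOF. `exists_half`: with `h`, `ε` of `exists_decayE`: if the two conditions of `exists_decayE` hold
for `σ`, `k` then `∫_{GB (3/2) ∩ {k ≤ σ u}} gs u e^{(n-2)u} ≤ C`: induction on `J` for the sets
`{k ≤ σ u ≤ k + J h}` (`exists_holderE` for the layers, `≤ (C₁ h)^(2/n) ((1/2)^j)^α`, geometric
series with ratio `(1/2)^α < 1`), `σ u ≤ k + J h` on `GB 5` for large `J` (`CoreE.bdd`).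
`exists_energyE`: `exists_levels`; `GB (3/2) ⊆ {k₀ ≤ u} ∪ {-k₁ ≤ -u} ∪ {k₁ ≤ u ≤ k₁ + T}`; the
third part is `≤ (C₁ T)^(2/n) V^α`; the half volume conditions: `1/(4V) ≤ (1/2) ev u (GB 2)`. -/

namespace Pool.Agent.Helper50.CE

open scoped ContDiff Topology NNReal
open Pool.Agent.Helper49.Ric Pool.Agent.Helper73.HB Pool.Agent.Helper50.CF MeasureTheory Filter

noncomputable section

variable {n : ℕ} {S V : ℝ} {u : (Fin n → ℝ) → ℝ} {x : Fin n → ℝ}

private theorem union_le (h : CoreE n S V u x) {F : (Fin n → ℝ) → ℝ} (hF : Continuous F)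
    (h0 : ∀ p, 0 ≤ F p) {X Y : Set (Fin n → ℝ)} (hX : X ⊆ GB u x 5) (hY : Y ⊆ GB u x 5)
    (mX : MeasurableSet X) (mY : MeasurableSet Y) :
    ∫ p in X ∪ Y, F p ≤ (∫ p in X, F p) + ∫ p in Y, F p := by
  have e : X ∪ Y = X ∪ (Y \ X) := Set.union_sdiff_self.symm
  rw [e, setIntegral_union Set.disjoint_sdiff_right (mY.diff mX) (h.int hF hX)
    (h.int hF (Set.sdiff_subset.trans hY))]
  have h1 : ∫ p in Y \ X, F p ≤ ∫ p in Y, F p :=
    setIntegral_mono_set (h.int hF hY) (Eventually.of_forall h0)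
      (Eventually.of_forall Set.sdiff_subset)
  linarith

private theorem cont_F (h : CoreE n S V u x) :
    Continuous (fun p => gs u p * Real.exp ((n - 2) * u p)) :=
  (cont_gs h.flat.smooth).mul (h.cont_e _)

private theorem F_nonneg (p : Fin n → ℝ) : 0 ≤ gs u p * Real.exp ((n - 2) * u p) :=
  mul_nonneg (gs_nonneg u p) (Real.exp_pos _).le

private theorem exists_half (n : ℕ) (S : ℝ) : ∃ ε C : ℝ, 0 < ε ∧ ε ≤ 1 ∧ 0 ≤ C ∧
    ∀ {u : (Fin n → ℝ) → ℝ} {x : Fin n → ℝ} {V : ℝ}, CoreE n S V u x →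
      ∀ {σ : ℝ}, σ = 1 ∨ σ = -1 → ∀ k : ℝ,
        ev u (GB u x (7 / 4) ∩ {p | k ≤ σ * u p}) ≤ ε →
        ev u (GB u x (7 / 4) ∩ {p | k ≤ σ * u p}) ≤ 1 / 2 * ev u (GB u x 2) →
        ∫ p in GB u x (3 / 2) ∩ {p | k ≤ σ * u p}, gs u p * Real.exp ((n - 2) * u p) ≤ C := by
  obtain ⟨h, ε, hh, hε, hε1, hdec⟩ := exists_decayE n S
  obtain ⟨C1, hC1, hhol⟩ := exists_holderE n
  have hC1h : 0 ≤ C1 * h := by positivity
  set q : ℝ := ((1 : ℝ) / 2) ^ (((n : ℝ) - 2) / n) with hq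
  refine ⟨ε, (C1 * h) ^ (2 / n : ℝ) * |1 / (1 - q)|, hε, hε1, by positivity, ?_⟩
  intro u x V hD σ hσ k hv1 hv2
  have hD' := hdec hD hσ k hv1 hv2
  have hn : 3 ≤ n := hD.flat.hn
  have hn3 : (3 : ℝ) ≤ n := by exact_mod_cast hn
  have hα : 0 < ((n : ℝ) - 2) / n := by
    apply div_pos <;> linarith
  have hq0 : 0 ≤ q := by positivity
  have hq1 : q < 1 := Real.rpow_lt_one (by norm_num) (by norm_num) hα
  have hu := hD.flat.smooth
  have hcF := cont_F hD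
  have hA5 : GB u x (3 / 2) ⊆ GB u x 5 := GB_mono (by norm_num)
  have hmA := meas_GB hu x (3 / 2)
  have mlt : ∀ t : ℝ, MeasurableSet {p : Fin n → ℝ | σ * u p < t} := fun t =>
    (isOpen_lt (continuous_const.mul hu.continuous) continuous_const).measurableSet
  have key : ∀ J : ℕ, ∫ p in GB u x (3 / 2) ∩ ({p | k ≤ σ * u p} ∩ {p | σ * u p < k + J * h}),
      gs u p * Real.exp ((n - 2) * u p) ≤
        (C1 * h) ^ (2 / n : ℝ) * ∑ j ∈ Finset.range J, q ^ j := by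
    intro J
    induction J with
    | zero =>
      have e : GB u x (3 / 2) ∩ ({p | k ≤ σ * u p} ∩ {p | σ * u p < k + ((0 : ℕ) : ℝ) * h}) =
          ∅ := by
        ext p
        simp only [Set.mem_inter_iff, Set.mem_ofPred_eq, Nat.cast_zero, zero_mul, add_zero,
          Set.mem_empty_iff_false, iff_false, not_and, not_lt]
        intro _ h1
        exact h1
      rw [e]
      simp
    | succ J ih =>
      have hsub : GB u x (3 / 2) ∩ ({p | k ≤ σ * u p} ∩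
            {p | σ * u p < k + ((J + 1 : ℕ) : ℝ) * h}) ⊆
          (GB u x (3 / 2) ∩ ({p | k ≤ σ * u p} ∩ {p | σ * u p < k + J * h})) ∪
            (GB u x (3 / 2) ∩ {p | k + J * h ≤ σ * u p ∧ σ * u p ≤ k + J * h + h}) := by
        rintro p ⟨h1, h2, h3⟩
        have h3' : σ * u p < k + ((J + 1 : ℕ) : ℝ) * h := h3
        push_cast at h3'
        by_cases h4 : σ * u p < k + J * h
        · exact Or.inl ⟨h1, h2, h4⟩
        · refine Or.inr ⟨h1, not_lt.mp h4, ?_⟩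
          linarith
      have m1 : MeasurableSet (GB u x (3 / 2) ∩ ({p | k ≤ σ * u p} ∩
          {p | σ * u p < k + J * h})) := hmA.inter ((meas_lev hu σ k).inter (mlt _))
      have m2 : MeasurableSet (GB u x (3 / 2) ∩
          {p | k + J * h ≤ σ * u p ∧ σ * u p ≤ k + J * h + h}) :=
        hmA.inter ((meas_lev hu σ _).inter (meas_lev2 hu σ _))
      have s1 : GB u x (3 / 2) ∩ ({p | k ≤ σ * u p} ∩
          {p | σ * u p < k + J * h}) ⊆ GB u x 5 := Set.inter_subset_left.trans hA5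
      have s2 : GB u x (3 / 2) ∩
          {p | k + J * h ≤ σ * u p ∧ σ * u p ≤ k + J * h + h} ⊆ GB u x 5 :=
        Set.inter_subset_left.trans hA5
      have a1 : ∫ p in GB u x (3 / 2) ∩ ({p | k ≤ σ * u p} ∩
            {p | σ * u p < k + ((J + 1 : ℕ) : ℝ) * h}), gs u p * Real.exp ((n - 2) * u p) ≤
          ∫ p in (GB u x (3 / 2) ∩ ({p | k ≤ σ * u p} ∩ {p | σ * u p < k + J * h})) ∪
            (GB u x (3 / 2) ∩ {p | k + J * h ≤ σ * u p ∧ σ * u p ≤ k + J * h + h}),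
            gs u p * Real.exp ((n - 2) * u p) :=
        setIntegral_mono_set (hD.int hcF (Set.union_subset s1 s2))
          (Eventually.of_forall F_nonneg) (Eventually.of_forall hsub)
      have a2 := union_le hD hcF F_nonneg s1 s2 m1 m2
      have a3 := hhol hD hσ hA5 hmA (k + J * h) h (by linarith)
      have a4 : ev u (GB u x (3 / 2) ∩
          {p | k + J * h ≤ σ * u p ∧ σ * u p ≤ k + J * h + h}) ≤ (1 / 2) ^ J := by
        refine le_trans (hD.ev_mono ?_ ?_) (hD' J)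
        · exact Set.inter_subset_inter_right _ fun p hp => hp.1
        · exact Set.inter_subset_left.trans hA5
      have a5 : ev u (GB u x (3 / 2) ∩
          {p | k + J * h ≤ σ * u p ∧ σ * u p ≤ k + J * h + h}) ^ (((n : ℝ) - 2) / n) ≤
          q ^ J := by
        refine (Real.rpow_le_rpow (ev_nonneg u _) a4 hα.le).trans (le_of_eq ?_)
        rw [hq, ← Real.rpow_natCast, ← Real.rpow_natCast, ← Real.rpow_mul (by norm_num),
          ← Real.rpow_mul (by norm_num), mul_comm]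
      have a6 := mul_le_mul_of_nonneg_left a5 (Real.rpow_nonneg hC1h (2 / n : ℝ))
      rw [Finset.sum_range_succ, mul_add]
      linarith
  obtain ⟨M, hM0, hM⟩ := hD.bdd
  obtain ⟨J, hJ⟩ := exists_nat_gt (M - k)
  have hall : GB u x (3 / 2) ∩ {p | k ≤ σ * u p} =
      GB u x (3 / 2) ∩ ({p | k ≤ σ * u p} ∩ {p | σ * u p < k + J * h}) := by
    ext p
    constructor
    · rintro ⟨h1, h2⟩
      refine ⟨h1, h2, ?_⟩
      have h3 : σ * u p ≤ M := by
        have h4 := hM p (hA5 h1)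
        have h5 := abs_le.mp h4
        rcases hσ with rfl | rfl <;> linarith
      have h6 : (J : ℝ) ≤ J * h := le_mul_of_one_le_right (by positivity) hh
      change σ * u p < k + J * h
      linarith
    · rintro ⟨h1, h2, _⟩
      exact ⟨h1, h2⟩
  have h1 := key J
  rw [← hall] at h1
  refine h1.trans ?_
  refine mul_le_mul_of_nonneg_left ?_ (Real.rpow_nonneg hC1h _)
  have h3 : ∑ j ∈ Finset.range J, q ^ j ≤ 1 / (1 - q) := by
    rw [geom_sum_eq hq1.ne]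
    have h4 : (q ^ J - 1) / (q - 1) = (1 - q ^ J) / (1 - q) := by
      rw [← neg_sub 1 (q ^ J), ← neg_sub 1 q, neg_div_neg_eq]
    rw [h4]
    have h5 : 0 ≤ q ^ J := pow_nonneg hq0 J
    have h6 : 0 < 1 - q := by linarith
    gcongr
    linarith
  exact h3.trans (le_abs_self _)

theorem exists_energyE (n : ℕ) (S V : ℝ) : ∃ C : ℝ, 1 ≤ C ∧
    ∀ {u : (Fin n → ℝ) → ℝ} {x : Fin n → ℝ}, CoreE n S V u x →
      ∫ p in GB u x (3 / 2), gs u p * Real.exp ((n - 2) * u p) ≤ C := by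
  obtain ⟨ε, C2, hε, hε1, hC2, hhalf⟩ := exists_half n S
  obtain ⟨T, hT1, hlev⟩ := exists_levels n S V ε hε
  obtain ⟨C1, hC1, hhol⟩ := exists_holderE n
  refine ⟨1 + 2 * C2 + (C1 * T) ^ (2 / n : ℝ) * |V| ^ (((n : ℝ) - 2) / n), ?_, ?_⟩
  · have : 0 ≤ (C1 * T) ^ (2 / n : ℝ) * |V| ^ (((n : ℝ) - 2) / n) := by positivity
    linarith
  intro u x h
  have hV := h.hV
  have hu := h.flat.smooth
  have hn : 3 ≤ n := h.flat.hn
  have hn3 : (3 : ℝ) ≤ n := by exact_mod_cast hn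
  have hα : 0 < ((n : ℝ) - 2) / n := by
    apply div_pos <;> linarith
  obtain ⟨k₀, k₁, hk, h0, h1⟩ := hlev h
  have hcF := cont_F h
  have hA5 : GB u x (3 / 2) ⊆ GB u x 5 := GB_mono (by norm_num)
  have hmA := meas_GB hu x (3 / 2)
  have h74 : GB u x (7 / 4) ⊆ GB u x 2 := GB_mono (by norm_num)
  have h25 : GB u x 2 ⊆ GB u x 5 := GB_mono (by norm_num)
  have hVV : 1 / (4 * V) ≤ 1 / 2 * ev u (GB u x 2) := by
    have h2 := h.lo
    have h3 : 1 / (4 * V) = 1 / 4 * (1 / V) := by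
      field_simp
    have h4 : 0 < 1 / V := by positivity
    rw [h3]
    linarith
  have b1 : ∀ k σ : ℝ, ev u (GB u x 2 ∩ {p | k ≤ σ * u p}) ≤ min ε (1 / (4 * V)) →
      ev u (GB u x (7 / 4) ∩ {p | k ≤ σ * u p}) ≤ ε ∧
      ev u (GB u x (7 / 4) ∩ {p | k ≤ σ * u p}) ≤ 1 / 2 * ev u (GB u x 2) := by
    intro k σ hk
    have h2 : ev u (GB u x (7 / 4) ∩ {p | k ≤ σ * u p}) ≤
        ev u (GB u x 2 ∩ {p | k ≤ σ * u p}) :=
      h.ev_mono (Set.inter_subset_inter_left _ h74) (Set.inter_subset_left.trans h25)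
    exact ⟨h2.trans (hk.trans (min_le_left _ _)),
      h2.trans (hk.trans ((min_le_right _ _).trans hVV))⟩
  have c0 := hhalf h (Or.inl rfl : (1 : ℝ) = 1 ∨ (1 : ℝ) = -1) k₀ (b1 k₀ 1 h0).1 (b1 k₀ 1 h0).2
  have c1 := hhalf h (Or.inr rfl : (-1 : ℝ) = 1 ∨ (-1 : ℝ) = -1) (-k₁)
    (b1 (-k₁) (-1) h1).1 (b1 (-k₁) (-1) h1).2
  have c2 := hhol h (Or.inl rfl : (1 : ℝ) = 1 ∨ (1 : ℝ) = -1) hA5 hmA k₁ T (by linarith)
  have e2 : ev u (GB u x (3 / 2) ∩ {p | k₁ ≤ 1 * u p ∧ 1 * u p ≤ k₁ + T}) ≤ |V| := by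
    refine (h.ev_mono (A' := GB u x 4) ?_ (GB_mono (by norm_num))).trans
      (h.up.trans (le_abs_self V))
    exact Set.inter_subset_left.trans (GB_mono (by norm_num))
  have c3 : (C1 * T) ^ (2 / n : ℝ) *
      ev u (GB u x (3 / 2) ∩ {p | k₁ ≤ 1 * u p ∧ 1 * u p ≤ k₁ + T}) ^ (((n : ℝ) - 2) / n) ≤
      (C1 * T) ^ (2 / n : ℝ) * |V| ^ (((n : ℝ) - 2) / n) := by
    refine mul_le_mul_of_nonneg_left (Real.rpow_le_rpow (ev_nonneg u _) e2 hα.le) ?_
    positivity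
  have m0 : MeasurableSet (GB u x (3 / 2) ∩ {p | k₀ ≤ 1 * u p}) := hmA.inter (meas_lev hu 1 k₀)
  have m1 : MeasurableSet (GB u x (3 / 2) ∩ {p | -k₁ ≤ -1 * u p}) :=
    hmA.inter (meas_lev hu (-1) (-k₁))
  have m2 : MeasurableSet (GB u x (3 / 2) ∩ {p | k₁ ≤ 1 * u p ∧ 1 * u p ≤ k₁ + T}) :=
    hmA.inter ((meas_lev hu 1 k₁).inter (meas_lev2 hu 1 _))
  have s0 : GB u x (3 / 2) ∩ {p | k₀ ≤ 1 * u p} ⊆ GB u x 5 := Set.inter_subset_left.trans hA5
  have s1 : GB u x (3 / 2) ∩ {p | -k₁ ≤ -1 * u p} ⊆ GB u x 5 :=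
    Set.inter_subset_left.trans hA5
  have s2 : GB u x (3 / 2) ∩ {p | k₁ ≤ 1 * u p ∧ 1 * u p ≤ k₁ + T} ⊆ GB u x 5 :=
    Set.inter_subset_left.trans hA5
  have hsub : GB u x (3 / 2) ⊆ ((GB u x (3 / 2) ∩ {p | k₀ ≤ 1 * u p}) ∪
      (GB u x (3 / 2) ∩ {p | -k₁ ≤ -1 * u p})) ∪
      (GB u x (3 / 2) ∩ {p | k₁ ≤ 1 * u p ∧ 1 * u p ≤ k₁ + T}) := by
    intro p hp
    by_cases g0 : k₀ ≤ 1 * u p
    · exact Or.inl (Or.inl ⟨hp, g0⟩)
    by_cases g1 : -k₁ ≤ -1 * u p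
    · exact Or.inl (Or.inr ⟨hp, g1⟩)
    refine Or.inr ⟨hp, ?_, ?_⟩
    · linarith [not_le.mp g1]
    · linarith [not_le.mp g0]
  have d1 : ∫ p in GB u x (3 / 2), gs u p * Real.exp ((n - 2) * u p) ≤
      ∫ p in ((GB u x (3 / 2) ∩ {p | k₀ ≤ 1 * u p}) ∪
      (GB u x (3 / 2) ∩ {p | -k₁ ≤ -1 * u p})) ∪
      (GB u x (3 / 2) ∩ {p | k₁ ≤ 1 * u p ∧ 1 * u p ≤ k₁ + T}),
        gs u p * Real.exp ((n - 2) * u p) :=
    setIntegral_mono_set (h.int hcF (Set.union_subset (Set.union_subset s0 s1) s2))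
      (Eventually.of_forall F_nonneg) (Eventually.of_forall hsub)
  have d2 := union_le h hcF F_nonneg (Set.union_subset s0 s1) s2 (m0.union m1) m2
  have d3 := union_le h hcF F_nonneg s0 s1 m0 m1
  linarith

end

end Pool.Agent.Helper50.CE
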