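import Pool.Agent.Helper50.CE.LayerE

/-! # CE-4: the energy `∫ |∇u|² e^{(n-2)u}` of a layer of a set

PROOF. Hölder's inequality (as `CF/Holder.lean`, `a = n - 2`) on the bounded measurable set
`A ∩ {k ≤ σ u ≤ k + h}`, with `exists_layerE` for the first factor (`A ⊆ B n ρ` by `CoreE.sub_B`; for
`σ = -1` the layer is `{-k-h ≤ u ≤ -k}`). -/

namespace Pool.Agent.Helper50.CE

open scoped ContDiff Topology NNReal
open Pool.Agent.Helper49.Ric Pool.Agent.Helper73.HB Pool.Agent.Helper50.CF MeasureTheory Filter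

noncomputable section

variable {n : ℕ} {S V : ℝ} {u : (Fin n → ℝ) → ℝ} {x : Fin n → ℝ}

/-- the layer bound for `σ u`, `σ = ± 1` -/
theorem exists_layer_sigma (n : ℕ) : ∃ C : ℝ, 1 ≤ C ∧
    ∀ {u : (Fin n → ℝ) → ℝ} {x : Fin n → ℝ} {S V : ℝ}, CoreE n S V u x →
      ∀ {σ : ℝ}, σ = 1 ∨ σ = -1 → ∀ {A : Set (Fin n → ℝ)}, A ⊆ GB u x 5 → MeasurableSet A →
        ∀ k h : ℝ, 0 < h →
          ∫ p in A ∩ {p | k ≤ σ * u p ∧ σ * u p ≤ k + h}, gr u p ^ n ≤ C * h := by
  obtain ⟨C, hC1, hC⟩ := exists_layerE n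
  refine ⟨C, hC1, ?_⟩
  intro u x S V hD σ hσ A hA _ k h hh
  obtain ⟨ρ, hρ, hsub⟩ := hD.sub_B
  have hcont : Continuous (fun p => gr u p ^ n) := (cont_gr hD.flat.smooth).pow n
  have key : ∀ k' : ℝ, A ∩ {p | k ≤ σ * u p ∧ σ * u p ≤ k + h} ⊆
      B n ρ ∩ {p | k' ≤ u p ∧ u p ≤ k' + h} →
      ∫ p in A ∩ {p | k ≤ σ * u p ∧ σ * u p ≤ k + h}, gr u p ^ n ≤ C * h := by
    intro k' hsub'
    refine le_trans ?_ (hC hD.flat ρ hρ k' h hh)
    refine setIntegral_mono_set ?_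
      (Eventually.of_forall fun p => pow_nonneg (gr_nonneg u p) n) (Eventually.of_forall hsub')
    exact int_on hcont (isCompact_Bc ρ) (Set.inter_subset_left.trans (B_subset_Bc ρ))
  rcases hσ with rfl | rfl
  · refine key k ?_
    rintro p ⟨h1, h2, h3⟩
    rw [one_mul] at h2 h3
    exact ⟨hsub (hA h1), h2, h3⟩
  · refine key (-k - h) ?_
    rintro p ⟨h1, h2, h3⟩
    refine ⟨hsub (hA h1), ?_, ?_⟩ <;> linarith

theorem exists_holderE (n : ℕ) : ∃ C : ℝ, 1 ≤ C ∧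
    ∀ {u : (Fin n → ℝ) → ℝ} {x : Fin n → ℝ} {S V : ℝ}, CoreE n S V u x →
      ∀ {σ : ℝ}, σ = 1 ∨ σ = -1 → ∀ {A : Set (Fin n → ℝ)}, A ⊆ GB u x 5 → MeasurableSet A →
        ∀ k h : ℝ, 0 < h →
          ∫ p in A ∩ {p | k ≤ σ * u p ∧ σ * u p ≤ k + h},
            gs u p * Real.exp ((n - 2) * u p) ≤
              (C * h) ^ (2 / n : ℝ) *
                ev u (A ∩ {p | k ≤ σ * u p ∧ σ * u p ≤ k + h}) ^ ((n - 2) / n : ℝ) := by
  obtain ⟨C, hC1, hC⟩ := exists_layer_sigma n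
  refine ⟨C, hC1, ?_⟩
  intro u x S V hD σ hσ A hA hm k h hh
  have hL := hC hD hσ hA hm k h hh
  have hn : 3 ≤ n := hD.flat.hn
  have hn3 : (3 : ℝ) ≤ n := by exact_mod_cast hn
  have hn0 : (0 : ℝ) < n := by linarith
  set α : ℝ := 2 / n with hα
  set β : ℝ := ((n : ℝ) - 2) / n with hβ
  have hα0 : 0 < α := div_pos two_pos hn0
  have hβ0 : 0 < β := div_pos (by linarith) hn0
  have hab : α + β = 1 := by rw [hα, hβ]; field_simp; ring
  have e : Real.HolderConjugate (1 / α) (1 / β) := Real.holderConjugate_one_div hα0 hβ0 hab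
  set A' : Set (Fin n → ℝ) := A ∩ {p | k ≤ σ * u p ∧ σ * u p ≤ k + h} with hA'
  have hu := hD.flat.smooth
  have hm' : MeasurableSet A' := by
    refine hm.inter ?_
    have e1 : {p | k ≤ σ * u p ∧ σ * u p ≤ k + h} = {p | k ≤ σ * u p} ∩ {p | σ * u p ≤ k + h} := rfl
    rw [e1]
    exact (meas_lev hu σ k).inter (meas_lev2 hu σ (k + h))
  obtain ⟨K, hK, hs⟩ := hD.cpt
  have hAK : A' ⊆ K := (Set.inter_subset_left.trans hA).trans hs
  have hfin : IsFiniteMeasure (volume.restrict A') := by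
    refine ⟨?_⟩
    rw [Measure.restrict_apply_univ]
    exact lt_of_le_of_lt (measure_mono hAK) hK.measure_lt_top
  have mem : ∀ {f : (Fin n → ℝ) → ℝ} (c : ENNReal), Continuous f →
      MemLp f c (volume.restrict A') := by
    intro f c hf
    obtain ⟨M, hM⟩ := hK.exists_bound_of_continuousOn hf.continuousOn
    refine MemLp.of_bound hf.aestronglyMeasurable M ?_
    exact (ae_restrict_iff' hm').mpr (Eventually.of_forall fun p hp => hM p (hAK hp))
  have cf : Continuous (fun p => gr u p ^ 2) := (cont_gr hu).pow 2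
  have cg : Continuous (fun p => Real.exp (((n : ℝ) - 2) * u p)) := hD.cont_e _
  have H := integral_mul_le_Lp_mul_Lq_of_nonneg (μ := volume.restrict A') e
    (f := fun p => gr u p ^ 2) (g := fun p => Real.exp (((n : ℝ) - 2) * u p))
    (Eventually.of_forall fun p => pow_nonneg (gr_nonneg u p) _)
    (Eventually.of_forall fun p => (Real.exp_pos _).le) (mem _ cf) (mem _ cg)
  have e1 : ∀ p, (gr u p ^ 2) ^ (1 / α) = gr u p ^ n := by
    intro p
    rw [← Real.rpow_natCast, ← Real.rpow_mul (gr_nonneg u p), ← Real.rpow_natCast]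
    congr 1
    rw [hα]
    push_cast
    field_simp
  have e2 : ∀ p, Real.exp (((n : ℝ) - 2) * u p) ^ (1 / β) = Real.exp (n * u p) := by
    intro p
    rw [← Real.exp_mul]
    congr 1
    rw [hβ]
    have : (n : ℝ) - 2 ≠ 0 := by linarith
    field_simp
  simp only [e1, e2, one_div_one_div] at H
  have h1 : ∫ p in A', gs u p * Real.exp (((n : ℝ) - 2) * u p) =
      ∫ p in A', gr u p ^ 2 * Real.exp (((n : ℝ) - 2) * u p) := by
    congr 1; ext p; rw [gr_sq]
  rw [h1]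
  refine H.trans ?_
  have i1 : 0 ≤ ∫ p in A', gr u p ^ n := integral_nonneg fun p => pow_nonneg (gr_nonneg u p) _
  have i2 : 0 ≤ ∫ p in A', Real.exp (n * u p) := integral_nonneg fun p => (Real.exp_pos _).le
  exact mul_le_mul_of_nonneg_right (Real.rpow_le_rpow i1 hL hα0.le) (Real.rpow_nonneg i2 _)

end

end Pool.Agent.Helper50.CE
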