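import Pool.Agent.Helper50.CE.StepE

/-! # CE-3: the energy of a layer is at most `C h`

PROOF (as `CF/Layer.lean`). `testE` with `s = n - 2` (left side zero) and `ψ = φ χ(u)`, `φ` the
cutoff for `ρ < 2ρ` (`gr φ ≤ c/ρ`), `χ(t) = h (π/2 - arctan ((t-k)/h))`, `0 ≤ χ ≤ 4h`,
`-χ' ≥ 1/2` on `[k, k+h]`: `∫ φ (-χ'(u)) gr^n ≤ 4h (c/ρ) ∫_{B n (2ρ)} gr^(n-1) ≤ 4h (c/ρ) C 2ρ`. -/

namespace Pool.Agent.Helper50.CE

open scoped ContDiff Topology NNReal
open Pool.Agent.Helper49.Ric Pool.Agent.Helper73.HB Pool.Agent.Helper50.CF MeasureTheory Filter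

noncomputable section

variable {n : ℕ} {S V : ℝ} {u : (Fin n → ℝ) → ℝ} {x : Fin n → ℝ}

/-- the profile `χ` -/
private def chiE (k h t : ℝ) : ℝ := h * (Real.pi / 2 - Real.arctan ((t - k) / h))

/-- minus its derivative -/
private def wgtE (k h t : ℝ) : ℝ := 1 / (1 + ((t - k) / h) ^ 2)

private theorem chiE_smooth (k h : ℝ) : ContDiff ℝ ∞ (chiE k h) := by
  unfold chiE
  have h1 : ContDiff ℝ ∞ (fun t : ℝ => Real.arctan ((t - k) / h)) :=
    Real.contDiff_arctan.comp ((contDiff_id.sub contDiff_const).div_const h)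
  exact contDiff_const.mul (contDiff_const.sub h1)

private theorem chiE_deriv (k : ℝ) {h : ℝ} (hh : 0 < h) (t : ℝ) :
    HasDerivAt (chiE k h) (-wgtE k h t) t := by
  have h1 : HasDerivAt (fun t : ℝ => (t - k) / h) (1 / h) t :=
    ((hasDerivAt_id t).sub_const k).div_const h
  have h2 := (h1.arctan).const_sub (Real.pi / 2)
  have h3 := h2.const_mul h
  refine h3.congr_deriv ?_
  unfold wgtE
  have h4 : (1 : ℝ) + ((t - k) / h) ^ 2 ≠ 0 := by positivity
  field_simp

private theorem chiE_nonneg (k : ℝ) {h : ℝ} (hh : 0 < h) (t : ℝ) : 0 ≤ chiE k h t := by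
  unfold chiE
  have := Real.arctan_lt_pi_div_two ((t - k) / h)
  exact mul_nonneg hh.le (by linarith)

private theorem chiE_le (k : ℝ) {h : ℝ} (hh : 0 < h) (t : ℝ) : chiE k h t ≤ 4 * h := by
  unfold chiE
  have h1 := Real.neg_pi_div_two_lt_arctan ((t - k) / h)
  have h2 := Real.pi_le_four
  nlinarith

private theorem wgtE_nonneg (k h t : ℝ) : 0 ≤ wgtE k h t := by
  unfold wgtE
  positivity

private theorem wgtE_half {k h t : ℝ} (hh : 0 < h) (h1 : k ≤ t) (h2 : t ≤ k + h) :
    1 / 2 ≤ wgtE k h t := by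
  unfold wgtE
  have h3 : 0 ≤ (t - k) / h := div_nonneg (by linarith) hh.le
  have h4 : (t - k) / h ≤ 1 := by
    rw [div_le_one hh]
    linarith
  have h5 : ((t - k) / h) ^ 2 ≤ 1 := pow_le_one₀ h3 h4
  exact one_div_le_one_div_of_le (by positivity) (by linarith)

private theorem wgtE_cont (k h : ℝ) : Continuous (wgtE k h) := by
  unfold wgtE
  refine continuous_const.div (by fun_prop) fun t => ?_
  positivity

/-- derivative of `φ χ(u)` -/
private theorem pd_psiE {φ : (Fin n → ℝ) → ℝ} {p : Fin n → ℝ} (hφ : ContDiff ℝ ∞ φ)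
    (hu : ContDiffAt ℝ ∞ u p) (k : ℝ) {h : ℝ} (hh : 0 < h) (i : Fin n) :
    pd i (fun q => φ q * chiE k h (u q)) p =
      pd i φ p * chiE k h (u p) - φ p * (wgtE k h (u p) * pd i u p) := by
  have hud : DifferentiableAt ℝ u p := diff_of_smooth hu
  have h1 : HasFDerivAt (fun q => chiE k h (u q)) ((-wgtE k h (u p)) • fderiv ℝ u p) p :=
    (chiE_deriv k hh (u p)).comp_hasFDerivAt p hud.hasFDerivAt
  have h2 : DifferentiableAt ℝ (fun q => chiE k h (u q)) p := h1.differentiableAt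
  have h3 : pd i (fun q => chiE k h (u q)) p = -(wgtE k h (u p)) * pd i u p := by
    rw [pd_eq h2, pd_eq hud, h1.fderiv]
    rfl
  rw [pd_mul (hφ.contDiffAt.differentiableAt (by simp)) h2, h3]
  ring

private theorem meas_layerE (hu : Continuous u) (r k e : ℝ) :
    MeasurableSet (B n r ∩ {p | k ≤ u p ∧ u p ≤ k + e}) :=
  (measurableSet_B r).inter
    (((isClosed_le continuous_const hu).inter (isClosed_le hu continuous_const)).measurableSet)

private theorem int_B {f : (Fin n → ℝ) → ℝ} (hf : Continuous f) {A : Set (Fin n → ℝ)} {r : ℝ}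
    (hA : A ⊆ B n r) : IntegrableOn f A :=
  int_on hf (isCompact_Bc r) (hA.trans (B_subset_Bc r))

theorem exists_layerE (n : ℕ) : ∃ C : ℝ, 1 ≤ C ∧ ∀ {u : (Fin n → ℝ) → ℝ}, Flat n u →
    ∀ ρ : ℝ, 0 < ρ → ∀ k h : ℝ, 0 < h →
      ∫ p in B n ρ ∩ {p | k ≤ u p ∧ u p ≤ k + h}, gr u p ^ n ≤ C * h := by
  obtain ⟨c, hc1, hcut⟩ := Pool.Agent.Helper50.CF.exists_cutoff
  obtain ⟨G, hG1, hG⟩ := exists_stepE n
  refine ⟨16 * (c * G), by nlinarith, ?_⟩
  intro u hD ρ hρ k e he
  obtain ⟨φ, hφ, hφc, hφt, hφ0, hφ1, hφr, hφg⟩ := hcut n ρ (2 * ρ) hρ (by linarith)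
  have hn : 3 ≤ n := hD.hn
  have hRr : 2 * ρ - ρ = ρ := by ring
  rw [hRr] at hφg
  have hsm : ∀ p, ContDiffAt ℝ ∞ u p := fun p => hD.smooth.contDiffAt
  have hψ : ContDiff ℝ ∞ (fun q => φ q * chiE k e (u q)) :=
    hφ.mul ((chiE_smooth k e).comp hD.smooth)
  have hψc : HasCompactSupport (fun q => φ q * chiE k e (u q)) := hφc.mul_right
  have key := testE hD (s := n - 2) (by omega) hψ hψc
    (fun p => mul_nonneg (hφ0 p) (chiE_nonneg k he _))
  have hcoef : ((n : ℝ) - 2 - ((n - 2 : ℕ) : ℝ)) / 2 = 0 := by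
    rw [Nat.cast_sub (by omega)]
    push_cast
    ring
  rw [hcoef, zero_mul] at key
  -- pointwise identity
  have hid : ∀ p, gr u p ^ (n - 2) * ∑ i, pd i (fun q => φ q * chiE k e (u q)) p * pd i u p =
      (∑ i, pd i φ p * (chiE k e (u p) * gr u p ^ (n - 2) * pd i u p)) -
        φ p * (wgtE k e (u p) * gr u p ^ n) := by
    intro p
    have h1 : ∀ i, pd i (fun q => φ q * chiE k e (u q)) p * pd i u p =
        pd i φ p * (chiE k e (u p) * pd i u p) - φ p * wgtE k e (u p) * pd i u p ^ 2 := by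
      intro i
      rw [pd_psiE hφ (hsm p) k he i]
      ring
    rw [Finset.sum_congr rfl fun i _ => h1 i, Finset.sum_sub_distrib, ← Finset.mul_sum]
    have h2 : ∑ i, pd i u p ^ 2 = gr u p ^ 2 := (gr_sq u p).symm
    have h3 : gr u p ^ n = gr u p ^ (n - 2) * gr u p ^ 2 := by
      rw [← pow_add]
      congr 1
      omega
    rw [h2, h3, mul_sub, Finset.mul_sum]
    congr 1
    · refine Finset.sum_congr rfl fun i _ => ?_
      ring
    · ring
  obtain ⟨L, hL⟩ := lip_of hφ hφc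
  have hcgr : Continuous (gr u) := cont_gr hD.smooth
  have hcchi : Continuous (fun q => chiE k e (u q)) :=
    (chiE_smooth k e).continuous.comp hD.smooth.continuous
  have hcw : Continuous (fun q => wgtE k e (u q)) := (wgtE_cont k e).comp hD.smooth.continuous
  have hI1 : Integrable
      (fun p => ∑ i, pd i φ p * (chiE k e (u p) * gr u p ^ (n - 2) * pd i u p)) := by
    refine integrable_finsetSum _ fun i _ => ?_
    refine integrable_pd_mul (U := Set.univ) hL hφc (Set.subset_univ _) (fun p _ => ?_) i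
    exact (hcchi.continuousAt.mul (hcgr.continuousAt.pow _)).mul
      (smooth_pd (hsm p) i).continuousAt
  have hI2 : Integrable (fun p => φ p * (wgtE k e (u p) * gr u p ^ n)) := by
    refine integrable_mul_of hφ.continuous hφc (fun p _ => ?_)
    exact hcw.continuousAt.mul (hcgr.continuousAt.pow _)
  rw [integral_congr_ae (Eventually.of_forall hid), integral_sub hI1 hI2] at key
  -- first bound
  have hgr32 : Continuous (fun p => 4 * e * (c / ρ) * gr u p ^ (n - 1)) :=
    continuous_const.mul (hcgr.pow _)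
  have b1 : ∫ p, ∑ i, pd i φ p * (chiE k e (u p) * gr u p ^ (n - 2) * pd i u p) ≤
      4 * e * (c / ρ) * (G * (2 * ρ)) := by
    have h0 : ∀ p, p ∉ B n (2 * ρ) →
        ∑ i, pd i φ p * (chiE k e (u p) * gr u p ^ (n - 2) * pd i u p) = 0 := by
      intro p hp
      refine Finset.sum_eq_zero fun i _ => ?_
      rw [pd_zero_off (fun hq => hp (hφt hq)) i, zero_mul]
    rw [← setIntegral_eq_integral_of_forall_compl_eq_zero h0]
    have h1 : ∫ p in B n (2 * ρ), ∑ i, pd i φ p * (chiE k e (u p) * gr u p ^ (n - 2) * pd i u p) ≤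
        ∫ p in B n (2 * ρ), 4 * e * (c / ρ) * gr u p ^ (n - 1) := by
      refine setIntegral_mono_on hI1.integrableOn (int_B hgr32 subset_rfl)
        (measurableSet_B _) fun p _ => ?_
      have h2 : ∑ i, pd i φ p * (chiE k e (u p) * gr u p ^ (n - 2) * pd i u p) =
          chiE k e (u p) * gr u p ^ (n - 2) * ∑ i, pd i φ p * pd i u p := by
        rw [Finset.mul_sum]
        refine Finset.sum_congr rfl fun i _ => ?_
        ring
      have h3 : ∑ i, pd i φ p * pd i u p ≤ c / ρ * gr u p :=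
        (le_abs_self _).trans ((abs_inner_le φ u p).trans
          (mul_le_mul_of_nonneg_right (hφg p) (gr_nonneg u p)))
      have h4 : 0 ≤ chiE k e (u p) * gr u p ^ (n - 2) :=
        mul_nonneg (chiE_nonneg k he _) (pow_nonneg (gr_nonneg u p) _)
      have h5 : 0 ≤ c / ρ * gr u p :=
        mul_nonneg (div_nonneg (by linarith) hρ.le) (gr_nonneg u p)
      have h6 : gr u p ^ (n - 1) = gr u p ^ (n - 2) * gr u p := by
        rw [← pow_succ]
        congr 1
        omega
      rw [h2, h6]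
      calc chiE k e (u p) * gr u p ^ (n - 2) * ∑ i, pd i φ p * pd i u p
          ≤ chiE k e (u p) * gr u p ^ (n - 2) * (c / ρ * gr u p) :=
            mul_le_mul_of_nonneg_left h3 h4
        _ ≤ 4 * e * gr u p ^ (n - 2) * (c / ρ * gr u p) :=
            mul_le_mul_of_nonneg_right
              (mul_le_mul_of_nonneg_right (chiE_le k he _) (pow_nonneg (gr_nonneg u p) _)) h5
        _ = 4 * e * (c / ρ) * (gr u p ^ (n - 2) * gr u p) := by ring
    refine h1.trans ?_
    rw [integral_const_mul]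
    refine mul_le_mul_of_nonneg_left (hG hD (2 * ρ) (by linarith)) ?_
    exact mul_nonneg (by linarith) (div_nonneg (by linarith) hρ.le)
  -- left side
  have hA2 : B n ρ ∩ {p | k ≤ u p ∧ u p ≤ k + e} ⊆ B n ρ := Set.inter_subset_left
  have hgn : Continuous (fun p => gr u p ^ n) := hcgr.pow _
  have b4 : 1 / 2 * ∫ p in B n ρ ∩ {p | k ≤ u p ∧ u p ≤ k + e}, gr u p ^ n ≤
      ∫ p, φ p * (wgtE k e (u p) * gr u p ^ n) := by
    rw [← integral_const_mul]
    have h1 : ∫ p in B n ρ ∩ {p | k ≤ u p ∧ u p ≤ k + e}, 1 / 2 * gr u p ^ n ≤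
        ∫ p in B n ρ ∩ {p | k ≤ u p ∧ u p ≤ k + e}, φ p * (wgtE k e (u p) * gr u p ^ n) := by
      refine setIntegral_mono_on ((int_B hgn hA2).const_mul _) hI2.integrableOn
        (meas_layerE hD.smooth.continuous ρ k e) fun p hp => ?_
      rw [hφr p (B_subset_Bc ρ hp.1), one_mul]
      exact mul_le_mul_of_nonneg_right (wgtE_half he hp.2.1 hp.2.2) (pow_nonneg (gr_nonneg u p) _)
    refine h1.trans (setIntegral_le_integral hI2 (Eventually.of_forall fun p => ?_))
    exact mul_nonneg (hφ0 p) (mul_nonneg (wgtE_nonneg _ _ _) (pow_nonneg (gr_nonneg u p) _))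
  have e1 : 4 * e * (c / ρ) * (G * (2 * ρ)) = 8 * (c * G) * e := by
    field_simp
    ring
  rw [e1] at b1
  linarith

end

end Pool.Agent.Helper50.CE
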