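import Pool.Agent.Helper50.CE.LastE

/-! # Assembly: complete conformally flat metrics with `Ric ≥ 0` -/

namespace Pool.Agent.Helper50.CE

open scoped ContDiff Topology NNReal
open Pool.Agent.Helper49.Ric Pool.Agent.Helper73.HB Pool.Agent.Helper50.CF MeasureTheory Filter

noncomputable section

variable {n : ℕ}

theorem conf_ip (u f : (Fin n → ℝ) → ℝ) (p : Fin n → ℝ) :
    (∑ i, ∑ j, (conf u p)⁻¹ i j * pd i f p * pd j f p) * Real.sqrt (conf u p).det =
      gs f p * Real.exp ((n - 2) * u p) := by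
  have e1 : ∑ i, ∑ j, (conf u p)⁻¹ i j * pd i f p * pd j f p =
      Real.exp (-(2 * u p)) * gs f p := by
    rw [inv_conf]
    unfold gs
    rw [Finset.mul_sum]
    refine Finset.sum_congr rfl fun i _ => ?_
    rw [Finset.sum_eq_single i]
    · rw [Matrix.smul_apply, Matrix.one_apply_eq, smul_eq_mul]
      ring
    · intro j _ hj
      rw [Matrix.smul_apply, Matrix.one_apply_ne (Ne.symm hj), smul_eq_mul]
      ring
    · intro h
      exact absurd (Finset.mem_univ i) h
  rw [e1, dens_conf]
  have e2 : Real.exp ((n - 2) * u p) = Real.exp (-(2 * u p)) * Real.exp (n * u p) := by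
    rw [← Real.exp_add]
    congr 1
    ring
  rw [e2]
  ring

theorem main (hn : 3 ≤ n) (S V : ℝ) {v : ℝ} (hv : 0 < v) : ∃ C : ℝ,
    ∀ (u : (Fin n → ℝ) → ℝ) (x : Fin n → ℝ), ContDiff ℝ ∞ u →
      (∀ p w : Fin n → ℝ, 0 ≤ ∑ i, ∑ j, ricci (conf u) i j p * w i * w j) →
      (∃ K : Set (Fin n → ℝ), IsCompact K ∧ gball Set.univ (conf u) x 5 ⊆ K) →
      v ≤ gvol (conf u) (gball Set.univ (conf u) x 1) →
      gvol (conf u) (gball Set.univ (conf u) x 4) ≤ V →
      SobPoinPair (conf u) (gball Set.univ (conf u) x 2) (gball Set.univ (conf u) x 4) S →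
      ∫ p in gball Set.univ (conf u) x 1, scal (conf u) p * Real.sqrt (conf u p).det ≤
        C * gvol (conf u) (gball Set.univ (conf u) x 1) := by
  obtain ⟨C, hC, H⟩ := exists_lastE n (max S 1) (max V (max (1 / v) 1))
  refine ⟨C / v, fun u x hu hR hK hlo hup hS => ?_⟩
  have hRic : ∀ p, ∀ w : Fin n → ℝ, -(0 : ℝ) * ∑ i, ∑ j, conf u p i j * w i * w j ≤
      ∑ i, ∑ j, ricci (conf u) i j p * w i * w j := by
    intro p w
    rw [neg_zero, zero_mul]
    exact hR p w
  have hflat : Flat n u := by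
    refine ⟨hn, hu, fun p => ?_, fun p => ?_⟩
    · have := ric_P1 hn hu.contDiffAt le_rfl (hRic p)
      simpa using this
    · have := ric_P2 hn hu.contDiffAt le_rfl (hRic p)
      simpa using this
  have h24 : GB u x 1 ⊆ GB u x 2 := GB_mono (by norm_num)
  have hint : IntegrableOn (fun p => Real.exp (n * u p)) (GB u x 2) := by
    obtain ⟨K, hKc, hKs⟩ := hK
    have h25 : GB u x 2 ⊆ GB u x 5 := GB_mono (by norm_num)
    exact int_on (cont_exp hu n) hKc (h25.trans hKs)
  have hlo2 : v ≤ ev u (GB u x 2) := by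
    rw [gvol_eq] at hlo
    refine hlo.trans ?_
    exact setIntegral_mono_set hint (Eventually.of_forall fun _ => (Real.exp_pos _).le)
      (Eventually.of_forall h24)
  have hcore : CoreE n (max S 1) (max V (max (1 / v) 1)) u x := by
    refine ⟨hflat, le_max_right _ _, (le_max_right _ _).trans (le_max_right _ _), hK, ?_, ?_, ?_⟩
    · refine le_trans ?_ hlo2
      have h1 : 1 / v ≤ max V (max (1 / v) 1) := (le_max_left _ _).trans (le_max_right _ _)
      have h2 : 0 < 1 / v := by positivity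
      rw [div_le_iff₀ (lt_of_lt_of_le h2 h1)]
      calc (1 : ℝ) = v * (1 / v) := by field_simp
        _ ≤ v * max V (max (1 / v) 1) := mul_le_mul_of_nonneg_left h1 hv.le
    · rw [gvol_eq] at hup
      exact hup.trans (le_max_left _ _)
    · intro f L hf hc
      obtain ⟨c, hc'⟩ := hS f L hf hc
      refine ⟨c, ?_⟩
      simp only [conf_ip] at hc'
      simp only [dens_conf] at hc'
      refine hc'.trans (mul_le_mul_of_nonneg_right (le_max_left _ _) ?_)
      exact integral_nonneg fun p => mul_nonneg (gs_nonneg f p) (Real.exp_pos _).le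
  have h1 := H hcore
  have e1 : ∀ p, scal (conf u) p * Real.sqrt (conf u p).det =
      (-(2 * ((n : ℝ) - 1)) * lp u p - ((n : ℝ) - 1) * ((n : ℝ) - 2) * gs u p)
        * Real.exp ((n - 2) * u p) := fun p => scal_conf hu.contDiffAt
  simp only [e1]
  refine h1.trans ?_
  rw [div_mul_eq_mul_div, le_div_iff₀ hv]
  exact mul_le_mul_of_nonneg_left hlo (by linarith)

end

end Pool.Agent.Helper50.CE
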