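import Pool.Agent.Helper50.CE.Basic

/-! # CE-5: the Sobolev inequality for functions supported on at most half of the volume

PROOF (as `CP/Small.lean`). `q = 2n/(n-2)`, `α = (n-2)/n`, `q α = 2`, `W = ev u (GB u x 2)`,
`Z = GB u x 2 ∩ {f ≠ 0}`, `ev u Z ≤ ev u A ≤ W/2`. With `c` from `h.sp`,
`I = ∫_{GB 2} |f - c|^q e^{nu}`: `|c|^q (W - ev u Z) ≤ I`, so `|c|^q ev u Z ≤ |c|^q W/2 ≤ I`;
`|f|^q ≤ 2^q (|f-c|^q + |c|^q)` on `Z` gives `∫_{GB 2} |f|^q e^{nu} ≤ 2^(q+1) I`, and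
`(2^(q+1))^α = 2^(2+α) ≤ 8`. -/

namespace Pool.Agent.Helper50.CE

open scoped ContDiff Topology NNReal
open Pool.Agent.Helper49.Ric Pool.Agent.Helper73.HB Pool.Agent.Helper50.CF MeasureTheory Filter

noncomputable section

variable {n : ℕ} {S V : ℝ} {u : (Fin n → ℝ) → ℝ} {x : Fin n → ℝ}

/-- `|x|^q ≤ 2^q (|x - c|^q + |c|^q)` -/
private theorem abs_rpow_le_two (x c : ℝ) {q : ℝ} (hq : 0 < q) :
    |x| ^ q ≤ 2 ^ q * (|x - c| ^ q + |c| ^ q) := by
  have h1 : |x| ≤ 2 * max |x - c| |c| := by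
    have e : |x| ≤ |x - c| + |c| := by
      have := abs_add_le (x - c) c
      simpa using this
    have e1 := le_max_left |x - c| |c|
    have e2 := le_max_right |x - c| |c|
    linarith
  have h2 : |x| ^ q ≤ (2 * max |x - c| |c|) ^ q := Real.rpow_le_rpow (abs_nonneg _) h1 hq.le
  rw [Real.mul_rpow (by norm_num) (le_max_of_le_left (abs_nonneg _))] at h2
  refine h2.trans (mul_le_mul_of_nonneg_left ?_ (by positivity))
  have a1 : 0 ≤ |x - c| ^ q := Real.rpow_nonneg (abs_nonneg _) _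
  have a2 : 0 ≤ |c| ^ q := Real.rpow_nonneg (abs_nonneg _) _
  rcases max_choice |x - c| |c| with e | e <;> rw [e] <;> linarith

theorem small_sob (h : CoreE n S V u x) {f : (Fin n → ℝ) → ℝ} {L : ℝ≥0}
    (hf : LipschitzWith L f) (hc : HasCompactSupport f) {A : Set (Fin n → ℝ)}
    (hA : MeasurableSet A) (hAs : A ⊆ GB u x 2) (hfA : ∀ p ∈ GB u x 2, p ∉ A → f p = 0)
    (hv : ev u A ≤ 1 / 2 * ev u (GB u x 2)) :
    (∫ p in GB u x 2, |f p| ^ (2 * n / (n - 2) : ℝ) * Real.exp (n * u p)) ^ ((n - 2) / n : ℝ) ≤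
      8 * S * ∫ p in GB u x 4, gs f p * Real.exp ((n - 2) * u p) := by
  obtain ⟨c, hc⟩ := h.sp f L hf hc
  have hn : (3 : ℝ) ≤ n := by exact_mod_cast h.flat.hn
  have hn2 : (0 : ℝ) < n - 2 := by linarith
  have hn0 : (0 : ℝ) < n := by linarith
  have hq0 : (0 : ℝ) < 2 * n / (n - 2) := div_pos (by linarith) hn2
  have hα0 : (0 : ℝ) < (n - 2) / n := div_pos hn2 hn0
  have hqα : (2 * n / (n - 2) : ℝ) * ((n - 2) / n) = 2 := by
    field_simp
  generalize (2 * n / (n - 2) : ℝ) = q at *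
  generalize ((n - 2) / n : ℝ) = α at *
  have hwc : Continuous (fun p => Real.exp (n * u p)) := h.cont_e n
  have hw0 : ∀ p, 0 ≤ Real.exp (n * u p) := fun p => (Real.exp_pos _).le
  have h25 : GB u x 2 ⊆ GB u x 5 := GB_mono (by norm_num)
  have hwV : ∀ B : Set (Fin n → ℝ), ev u B = ∫ p in B, Real.exp (n * u p) := fun B => rfl
  have hm2 : MeasurableSet (GB u x 2) := meas_GB h.flat.smooth x 2
  have hdiff : ev u (GB u x 2 \ A) = ev u (GB u x 2) - ev u A := by
    rw [hwV, hwV, hwV]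
    exact setIntegral_sdiff hA (h.int hwc h25) hAs
  have hfc : Continuous f := hf.continuous
  have i1 : ∀ {B : Set (Fin n → ℝ)}, B ⊆ GB u x 2 →
      IntegrableOn (fun p => |f p - c| ^ q * Real.exp (n * u p)) B := fun hB =>
    h.int (((hfc.sub continuous_const).abs.rpow_const (fun _ => Or.inr hq0.le)).mul hwc)
      (hB.trans h25)
  have i2 : ∀ {B : Set (Fin n → ℝ)}, B ⊆ GB u x 2 →
      IntegrableOn (fun p => |f p| ^ q * Real.exp (n * u p)) B := fun hB =>
    h.int ((hfc.abs.rpow_const (fun _ => Or.inr hq0.le)).mul hwc) (hB.trans h25)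
  have i3 : ∀ {B : Set (Fin n → ℝ)}, B ⊆ GB u x 2 →
      IntegrableOn (fun p => |c| ^ q * Real.exp (n * u p)) B := fun hB =>
    h.int (continuous_const.mul hwc) (hB.trans h25)
  have e0' : (∫ p in A, |f p| ^ q * Real.exp (n * u p)) +
      ∫ p in GB u x 2 \ A, |f p| ^ q * Real.exp (n * u p) =
      ∫ p in GB u x 2, |f p| ^ q * Real.exp (n * u p) := by
    have := integral_inter_add_sdiff hA (i2 (subset_refl (GB u x 2)))
    rwa [Set.inter_eq_self_of_subset_right hAs] at this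
  have e0 : ∫ p in GB u x 2, |f p| ^ q * Real.exp (n * u p) =
      ∫ p in A, |f p| ^ q * Real.exp (n * u p) := by
    rw [← e0', add_eq_left]
    refine setIntegral_eq_zero_of_forall_eq_zero fun p hp => ?_
    rw [hfA p hp.1 hp.2, abs_zero, Real.zero_rpow hq0.ne', zero_mul]
  have e1 : ∫ p in A, |f p| ^ q * Real.exp (n * u p) ≤
      ∫ p in A, 2 ^ q * (|f p - c| ^ q * Real.exp (n * u p) +
        |c| ^ q * Real.exp (n * u p)) := by
    refine setIntegral_mono_on (i2 hAs) (((i1 hAs).add (i3 hAs)).const_mul _) hA fun p _ => ?_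
    have := mul_le_mul_of_nonneg_right (abs_rpow_le_two (f p) c hq0) (hw0 p)
    calc _ ≤ _ := this
      _ = _ := by ring
  rw [integral_const_mul, integral_add (i1 hAs) (i3 hAs), integral_const_mul, ← hwV] at e1
  have e2 : ∫ p in GB u x 2 \ A, |f p - c| ^ q * Real.exp (n * u p) =
      |c| ^ q * ev u (GB u x 2 \ A) := by
    rw [hwV, ← integral_const_mul]
    refine setIntegral_congr_fun (hm2.diff hA) fun p hp => ?_
    show |f p - c| ^ q * Real.exp (n * u p) = |c| ^ q * Real.exp (n * u p)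
    rw [hfA p hp.1 hp.2, zero_sub, abs_neg]
  have e3 : (∫ p in A, |f p - c| ^ q * Real.exp (n * u p)) +
      ∫ p in GB u x 2 \ A, |f p - c| ^ q * Real.exp (n * u p) =
      ∫ p in GB u x 2, |f p - c| ^ q * Real.exp (n * u p) := by
    have := integral_inter_add_sdiff hA (i1 (subset_refl (GB u x 2)))
    rwa [Set.inter_eq_self_of_subset_right hAs] at this
  have hcq : 0 ≤ |c| ^ q := Real.rpow_nonneg (abs_nonneg _) _
  have e4 : |c| ^ q * ev u A ≤ |c| ^ q * ev u (GB u x 2 \ A) :=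
    mul_le_mul_of_nonneg_left (by rw [hdiff]; linarith) hcq
  have h2q : (0 : ℝ) < 2 ^ q := Real.rpow_pos_of_pos (by norm_num) _
  have e5 : ∫ p in GB u x 2, |f p| ^ q * Real.exp (n * u p) ≤
      2 ^ q * ∫ p in GB u x 2, |f p - c| ^ q * Real.exp (n * u p) := by
    rw [e0, ← e3, e2]
    exact e1.trans (mul_le_mul_of_nonneg_left (by linarith) h2q.le)
  have hI : 0 ≤ ∫ p in GB u x 2, |f p - c| ^ q * Real.exp (n * u p) :=
    integral_nonneg fun p => mul_nonneg (Real.rpow_nonneg (abs_nonneg _) _) (hw0 p)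
  have e6 : (∫ p in GB u x 2, |f p| ^ q * Real.exp (n * u p)) ^ α ≤
      (2 ^ q * ∫ p in GB u x 2, |f p - c| ^ q * Real.exp (n * u p)) ^ α :=
    Real.rpow_le_rpow (integral_nonneg fun p =>
      mul_nonneg (Real.rpow_nonneg (abs_nonneg _) _) (hw0 p)) e5 hα0.le
  rw [Real.mul_rpow h2q.le hI, ← Real.rpow_mul (by norm_num), hqα] at e6
  have e7 : (0 : ℝ) ≤ (∫ p in GB u x 2, |f p - c| ^ q * Real.exp (n * u p)) ^ α :=
    Real.rpow_nonneg hI _
  have e8 : (2 : ℝ) ^ (2 : ℝ) = 4 := by norm_num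
  rw [e8] at e6
  rw [mul_assoc]
  linarith

end

end Pool.Agent.Helper50.CE
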