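import Pool.Agent.Helper50.CE.TestE

/-! # CE-2: `∫_{|x| < ρ} |∇u|^{n-1} ≤ C ρ`

PROOF (as `CF/StepG.lean`, at the scale `ρ`). `testE` with `s = n - 3`, `ψ = φ^(n-1)`, `φ` the cutoff
(`exists_cutoff`, `r = ρ`, `R = 2ρ`, `gr φ ≤ c/ρ`): with `t = φ gr u`, `A = (n-1) c/ρ`:
`(1/2) ∫ t^(n-1) ≤ ∫ A t^(n-2) 1_{B n (2ρ)} ≤ ∫ (t^(n-1)/4 + A (4A)^(n-2)) 1_{B n (2ρ)}`
(case `t ≥ 4A` or not), and `vol (B n (2ρ)) ≤ (4ρ)^n` (cube), `A (4A)^(n-2) (4ρ)^n = C ρ`. -/

namespace Pool.Agent.Helper50.CE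

open scoped ContDiff Topology NNReal
open Pool.Agent.Helper49.Ric Pool.Agent.Helper73.HB Pool.Agent.Helper50.CF MeasureTheory Filter

noncomputable section

variable {n : ℕ} {S V : ℝ} {u : (Fin n → ℝ) → ℝ} {x : Fin n → ℝ}

private theorem aux1E {t c : ℝ} (ht : 0 ≤ t) (hc : 0 ≤ c) (m : ℕ) :
    c * t ^ m ≤ t ^ (m + 1) / 4 + c * (4 * c) ^ m := by
  rcases le_total (4 * c) t with h | h
  · have h1 : c * t ^ m ≤ t / 4 * t ^ m :=
      mul_le_mul_of_nonneg_right (by linarith) (pow_nonneg ht m)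
    have h2 : 0 ≤ c * (4 * c) ^ m := by positivity
    rw [pow_succ]
    linarith
  · have h1 : c * t ^ m ≤ c * (4 * c) ^ m :=
      mul_le_mul_of_nonneg_left (pow_le_pow_left₀ ht h m) hc
    have h2 : 0 ≤ t ^ (m + 1) := by positivity
    linarith

private theorem pd_powE {φ : (Fin n → ℝ) → ℝ} (hφ : ContDiff ℝ ∞ φ) (m : ℕ) (i : Fin n)
    (p : Fin n → ℝ) :
    pd i (fun q => φ q ^ (m + 1)) p = (m + 1) * φ p ^ m * pd i φ p := by
  have hd : ∀ m : ℕ, DifferentiableAt ℝ (fun q => φ q ^ m) p := fun m =>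
    diff_of_smooth (hφ.contDiffAt.pow m)
  induction m with
  | zero => simp
  | succ m ih =>
    have h1 : (fun q => φ q ^ (m + 1 + 1)) = fun q => φ q ^ (m + 1) * φ q := by
      funext q; exact pow_succ _ _
    rw [h1, pd_mul (hd (m + 1)) (diff_of_smooth hφ.contDiffAt), ih]
    push_cast
    ring

/-- the volume of the ball is at most that of the cube -/
private theorem volE (n : ℕ) {R : ℝ} (hR : 0 ≤ R) : (volume (B n R)).toReal ≤ (2 * R) ^ n := by
  have h1 : B n R ⊆ Set.Icc (fun _ => -R) (fun _ => R) := by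
    intro p hp
    have h2 : ∀ i, |p i| ≤ R := by
      intro i
      have h3 : p i ^ 2 ≤ ∑ j, p j ^ 2 :=
        Finset.single_le_sum (f := fun j => p j ^ 2) (fun j _ => sq_nonneg _) (Finset.mem_univ i)
      have h4 : ∑ j, p j ^ 2 < R ^ 2 := hp
      exact abs_le_of_sq_le_sq (h3.trans h4.le) hR
    exact ⟨fun i => (abs_le.mp (h2 i)).1, fun i => (abs_le.mp (h2 i)).2⟩
  have h2 : (volume (Set.Icc (fun _ : Fin n => -R) (fun _ => R))).toReal = (2 * R) ^ n := by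
    rw [Real.volume_Icc_pi_toReal (fun i => by show -R ≤ R; linarith)]
    rw [Finset.prod_const, Finset.card_univ, Fintype.card_fin]
    congr 1
    ring
  rw [← h2]
  exact ENNReal.toReal_mono isCompact_Icc.measure_lt_top.ne (measure_mono h1)

theorem exists_stepE (n : ℕ) : ∃ C : ℝ, 1 ≤ C ∧ ∀ {u : (Fin n → ℝ) → ℝ}, Flat n u →
    ∀ ρ : ℝ, 0 < ρ → ∫ p in B n ρ, gr u p ^ (n - 1) ≤ C * ρ := by
  obtain ⟨c0, hc0, hcut⟩ := Pool.Agent.Helper50.CF.exists_cutoff
  have hn0 : (0 : ℝ) ≤ n := Nat.cast_nonneg n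
  refine ⟨1 + 4 * (4 ^ (n - 2) * ((n : ℝ) * c0) ^ (n - 1) * 4 ^ n), ?_, ?_⟩
  · have : 0 ≤ 4 * (4 ^ (n - 2) * ((n : ℝ) * c0) ^ (n - 1) * 4 ^ n) := by positivity
    linarith
  intro u h ρ hρ
  obtain ⟨k, rfl⟩ : ∃ k, n = k + 3 := ⟨n - 3, by have := h.hn; omega⟩
  have e1 : k + 3 - 1 = k + 2 := rfl
  have e2 : k + 3 - 2 = k + 1 := rfl
  rw [e1, e2]
  set c : ℝ := ((k + 3 : ℕ) : ℝ) * (c0 / (2 * ρ - ρ)) with hcdef
  have hcc : c = ((k + 3 : ℕ) : ℝ) * c0 / ρ := by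
    rw [hcdef]
    have : 2 * ρ - ρ = ρ := by ring
    rw [this, mul_div_assoc]
  have hc : 0 ≤ c := by
    rw [hcc]; positivity
  set β : ℝ := (volume (B (k + 3) (2 * ρ))).toReal with hβ
  have hβ0 : 0 ≤ β := ENNReal.toReal_nonneg
  have hβ1 : β ≤ (4 * ρ) ^ (k + 3) := by
    have := volE (k + 3) (R := 2 * ρ) (by linarith)
    have e : 2 * (2 * ρ) = 4 * ρ := by ring
    rwa [e] at this
  set A : ℝ := c * (4 * c) ^ (k + 1) with hA
  have hA0 : 0 ≤ A := by rw [hA]; positivity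
  obtain ⟨φ, hφ, hφc, hφs, hφ0, hφ1, hφe, hφg⟩ := hcut (k + 3) ρ (2 * ρ) hρ (by linarith)
  -- the function psi
  have hψ : ContDiff ℝ ∞ (fun p => φ p ^ (k + 2)) := hφ.pow _
  have hψs0 : Function.support (fun p => φ p ^ (k + 2)) ⊆ Function.support φ := by
    intro p hp hp0
    apply hp
    show φ p ^ (k + 2) = 0
    rw [hp0]
    simp
  have hψs1 : tsupport (fun p => φ p ^ (k + 2)) ⊆ tsupport φ := closure_mono hψs0
  have hψs : tsupport (fun p => φ p ^ (k + 2)) ⊆ B (k + 3) (2 * ρ) := hψs1.trans hφs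
  have hψc : HasCompactSupport (fun p => φ p ^ (k + 2)) :=
    hφc.mono hψs0
  have hT := testE h (s := k) (by omega) hψ hψc (fun p => pow_nonneg (hφ0 p) _)
  have hcoef : (((k + 3 : ℕ) : ℝ) - 2 - (k : ℝ)) / 2 = 1 / 2 := by push_cast; ring
  rw [hcoef] at hT
  -- continuity
  have cφ : Continuous φ := hφ.continuous
  have cg : Continuous (gr u) := cont_gr h.smooth
  have cpu : ∀ i, Continuous (pd i u) := fun i =>
    continuous_iff_continuousAt.mpr fun p => (smooth_pd h.smooth.contDiffAt i).continuousAt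
  have cpψ : ∀ i, Continuous (pd i (fun p => φ p ^ (k + 2))) := fun i =>
    continuous_iff_continuousAt.mpr fun p => (smooth_pd hψ.contDiffAt i).continuousAt
  have cF1 : Continuous
      (fun p => gr u p ^ k * ∑ i, pd i (fun p => φ p ^ (k + 2)) p * pd i u p) := by
    refine (cg.pow k).mul ?_
    exact continuous_finsetSum _ fun i _ => (cpψ i).mul (cpu i)
  have cT : Continuous (fun p => (φ p * gr u p) ^ (k + 2)) := (cφ.mul cg).pow _
  -- vanishing off the ball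
  have hz : ∀ p ∉ B (k + 3) (2 * ρ), φ p ^ (k + 2) = 0 := fun p hp =>
    image_eq_zero_of_notMem_tsupport (f := fun p => φ p ^ (k + 2)) fun h' => hp (hψs h')
  have hz' : ∀ p ∉ B (k + 3) (2 * ρ), ∀ i, pd i (fun p => φ p ^ (k + 2)) p = 0 := by
    intro p hp i
    have h1 : (fun p => φ p ^ (k + 2)) =ᶠ[𝓝 p] fun _ => (0 : ℝ) :=
      notMem_tsupport_iff_eventuallyEq.mp fun h' => hp (hψs h')
    rw [pd_congr h1, pd_const]
  have i0 : ∫ p, φ p ^ (k + 2) * gr u p ^ (k + 2) =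
      ∫ p in B (k + 3) (2 * ρ), (φ p * gr u p) ^ (k + 2) := by
    rw [← setIntegral_eq_integral_of_forall_compl_eq_zero (s := B (k + 3) (2 * ρ))
      (fun p hp => by rw [hz p hp, zero_mul])]
    refine setIntegral_congr_fun (measurableSet_B _) fun p _ => ?_
    show φ p ^ (k + 2) * gr u p ^ (k + 2) = (φ p * gr u p) ^ (k + 2)
    rw [mul_pow]
  have i1 : ∫ p, gr u p ^ k * ∑ i, pd i (fun p => φ p ^ (k + 2)) p * pd i u p =
      ∫ p in B (k + 3) (2 * ρ),
        gr u p ^ k * ∑ i, pd i (fun p => φ p ^ (k + 2)) p * pd i u p := by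
    rw [← setIntegral_eq_integral_of_forall_compl_eq_zero (s := B (k + 3) (2 * ρ))]
    intro p hp
    rw [Finset.sum_eq_zero fun i _ => by rw [hz' p hp i, zero_mul], mul_zero]
  -- integrability
  have hK := isCompact_Bc (n := k + 3) (2 * ρ)
  have hsub : B (k + 3) (2 * ρ) ⊆ Bc (k + 3) (2 * ρ) := B_subset_Bc _
  have j1 := int_on cF1 hK hsub
  have jT := int_on cT hK hsub
  have jc : IntegrableOn (fun _ : Fin (k + 3) → ℝ => A) (B (k + 3) (2 * ρ)) :=
    integrableOn_const (volume_B_lt_top _).ne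
  -- the pointwise bound
  have hpt : ∀ p ∈ B (k + 3) (2 * ρ),
      gr u p ^ k * ∑ i, pd i (fun p => φ p ^ (k + 2)) p * pd i u p ≤
      (φ p * gr u p) ^ (k + 2) / 4 + A := by
    intro p _
    have ht : 0 ≤ φ p * gr u p := mul_nonneg (hφ0 p) (gr_nonneg u p)
    have q3 : ∑ i, pd i (fun p => φ p ^ (k + 2)) p * pd i u p =
        ((k : ℝ) + 2) * φ p ^ (k + 1) * ∑ i, pd i φ p * pd i u p := by
      rw [Finset.mul_sum]
      refine Finset.sum_congr rfl fun i _ => ?_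
      rw [pd_powE hφ (k + 1) i p]
      push_cast
      ring
    have q4 : ∑ i, pd i φ p * pd i u p ≤ c0 / (2 * ρ - ρ) * gr u p :=
      (le_abs_self _).trans ((abs_inner_le φ u p).trans
        (mul_le_mul_of_nonneg_right (hφg p) (gr_nonneg u p)))
    have q5 : 0 ≤ ((k : ℝ) + 2) * φ p ^ (k + 1) := by
      have := hφ0 p
      positivity
    have q6 : ∑ i, pd i (fun p => φ p ^ (k + 2)) p * pd i u p ≤
        c * φ p ^ (k + 1) * gr u p := by
      rw [q3]
      refine (mul_le_mul_of_nonneg_left q4 q5).trans ?_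
      have q7 : c * φ p ^ (k + 1) * gr u p =
          ((k : ℝ) + 3) * φ p ^ (k + 1) * (c0 / (2 * ρ - ρ) * gr u p) := by
        rw [hcdef]; push_cast; ring
      rw [q7]
      have q8 : 0 ≤ φ p ^ (k + 1) * (c0 / (2 * ρ - ρ) * gr u p) := by
        have := hφ0 p
        have := gr_nonneg u p
        have : 0 ≤ c0 / (2 * ρ - ρ) := div_nonneg (by linarith) (by linarith)
        positivity
      nlinarith
    have q9 : gr u p ^ k * ∑ i, pd i (fun p => φ p ^ (k + 2)) p * pd i u p ≤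
        c * (φ p * gr u p) ^ (k + 1) := by
      calc gr u p ^ k * ∑ i, pd i (fun p => φ p ^ (k + 2)) p * pd i u p
          ≤ gr u p ^ k * (c * φ p ^ (k + 1) * gr u p) :=
            mul_le_mul_of_nonneg_left q6 (pow_nonneg (gr_nonneg u p) k)
        _ = c * (φ p * gr u p) ^ (k + 1) := by rw [mul_pow]; ring
    exact q9.trans (aux1E ht hc (k + 1))
  have hint : (∫ p in B (k + 3) (2 * ρ),
        gr u p ^ k * ∑ i, pd i (fun p => φ p ^ (k + 2)) p * pd i u p) ≤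
      (∫ p in B (k + 3) (2 * ρ), (φ p * gr u p) ^ (k + 2)) / 4 + A * β := by
    have m1 := setIntegral_mono_on j1 ((jT.div_const 4).add jc) (measurableSet_B _) hpt
    have m3 : ∫ p in B (k + 3) (2 * ρ), ((φ p * gr u p) ^ (k + 2) / 4 + A) =
        (∫ p in B (k + 3) (2 * ρ), (φ p * gr u p) ^ (k + 2)) / 4 + A * β := by
      rw [integral_add (jT.div_const 4) jc, integral_div, setIntegral_const]
      rw [smul_eq_mul, mul_comm A β]
      rfl
    rw [← m3]
    exact m1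
  rw [i0, i1] at hT
  have hfin : ∫ p in B (k + 3) (2 * ρ), (φ p * gr u p) ^ (k + 2) ≤ 4 * (A * β) := by
    linarith
  -- restriction to the ball of radius ρ
  have r1 : ∫ p in B (k + 3) ρ, gr u p ^ (k + 2) =
      ∫ p in B (k + 3) ρ, (φ p * gr u p) ^ (k + 2) := by
    refine setIntegral_congr_fun (measurableSet_B _) fun p hp => ?_
    show gr u p ^ (k + 2) = (φ p * gr u p) ^ (k + 2)
    rw [hφe p (B_subset_Bc _ hp), one_mul]
  have r2 : ∫ p in B (k + 3) ρ, (φ p * gr u p) ^ (k + 2) ≤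
      ∫ p in B (k + 3) (2 * ρ), (φ p * gr u p) ^ (k + 2) := by
    refine setIntegral_mono_set jT ?_ ?_
    · exact Eventually.of_forall fun p =>
        pow_nonneg (mul_nonneg (hφ0 p) (gr_nonneg u p)) _
    · exact Eventually.of_forall (B_mono hρ.le (by linarith))
  have r3 : A * β ≤ 4 ^ (k + 1) * (((k + 3 : ℕ) : ℝ) * c0) ^ (k + 2) * 4 ^ (k + 3) * ρ := by
    refine (mul_le_mul_of_nonneg_left hβ1 hA0).trans (le_of_eq ?_)
    rw [hA, hcc]
    have hρ' : ρ ≠ 0 := hρ.ne'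
    generalize ((k + 3 : ℕ) : ℝ) * c0 = d
    rw [mul_pow, mul_pow, div_pow]
    field_simp
    ring
  rw [r1]
  have r4 : 0 ≤ ρ := hρ.le
  nlinarith

end

end Pool.Agent.Helper50.CE
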