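import Pool.Agent.Helper50.CE.HolderE
import Pool.Agent.Helper50.CE.SmallE
import Pool.Agent.Helper50.CF.Decay

/-! # CE-6: one step of the Sobolev iteration

PROOF. `f = η · τ((σ u - k)/h)`, `η` from `CoreE.cut` (`r₁ < r₂`), `τ = Real.smoothTransition`
(`exists_step`: `|τ'| ≤ c`). `f` is Lipschitz with compact support (`η` Lipschitz with compact
support, the second factor smooth: multiply it by a smooth compactly supported function which is one
near `tsupport η`, then a product of bounded Lipschitz functions). At almost every `p` (where `η` is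
differentiable): `∂ᵢf = τ ∂ᵢη + η τ' (σ/h) ∂ᵢu`, so `gs f ≤ 2 τ² gs η + 2 η² τ'² h⁻² gs u`, with
`gs η ≤ e^{2u} (r₂-r₁)⁻²`, `gs η = 0` off `GB r₂` (`pd_zero_of_nonneg`), `τ = 0` for `σ u ≤ k` and
`τ' = 0` off `[0,1]`. With `A = GB u x r₂ ∩ {k ≤ σ u}`:
`∫_{GB 4} gs f e^{(n-2)u} ≤ 2 (r₂-r₁)⁻² ev u A + 2 c² h⁻² (C h)^(2/n) (ev u A)^α` (`exists_holderE`).
`small_sob` with `A`; the left side is `≥ (ev u (GB u x r₁ ∩ {k + h ≤ σ u}))^α` (`f = 1` there). -/

namespace Pool.Agent.Helper50.CE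

open scoped ContDiff Topology NNReal
open Pool.Agent.Helper49.Ric Pool.Agent.Helper73.HB Pool.Agent.Helper50.CF MeasureTheory Filter

noncomputable section

variable {n : ℕ} {S V : ℝ} {u : (Fin n → ℝ) → ℝ} {x : Fin n → ℝ}

/-- the product of two bounded Lipschitz functions -/
theorem lip_mul_one {η g : (Fin n → ℝ) → ℝ} {L M : ℝ≥0} (hη : LipschitzWith L η)
    (hg : LipschitzWith M g) (h1 : ∀ p, |η p| ≤ 1) (h2 : ∀ p, |g p| ≤ 1) :
    LipschitzWith (M + L) (fun p => η p * g p) := by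
  refine LipschitzWith.of_dist_le_mul fun p q => ?_
  have a1 := hη.dist_le_mul p q
  have a2 := hg.dist_le_mul p q
  rw [Real.dist_eq] at a1 a2 ⊢
  have e : η p * g p - η q * g q = η p * (g p - g q) + g q * (η p - η q) := by ring
  rw [e, NNReal.coe_add]
  have b1 : |η p * (g p - g q)| ≤ M * dist p q := by
    rw [abs_mul]
    calc |η p| * |g p - g q| ≤ 1 * |g p - g q| :=
          mul_le_mul_of_nonneg_right (h1 p) (abs_nonneg _)
      _ ≤ _ := by rw [one_mul]; exact a2
  have b2 : |g q * (η p - η q)| ≤ L * dist p q := by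
    rw [abs_mul]
    calc |g q| * |η p - η q| ≤ 1 * |η p - η q| :=
          mul_le_mul_of_nonneg_right (h2 q) (abs_nonneg _)
      _ ≤ _ := by rw [one_mul]; exact a1
  calc |η p * (g p - g q) + g q * (η p - η q)| ≤
        |η p * (g p - g q)| + |g q * (η p - η q)| := abs_add_le _ _
    _ ≤ M * dist p q + L * dist p q := add_le_add b1 b2
    _ = _ := by ring

theorem exists_stepS (n : ℕ) : ∃ C : ℝ, 1 ≤ C ∧
    ∀ {u : (Fin n → ℝ) → ℝ} {x : Fin n → ℝ} {S V : ℝ}, CoreE n S V u x →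
      ∀ {σ : ℝ}, σ = 1 ∨ σ = -1 → ∀ r₁ r₂ k h : ℝ, 1 ≤ r₁ → r₁ < r₂ → r₂ < 2 → 0 < h →
        ev u (GB u x r₂ ∩ {p | k ≤ σ * u p}) ≤ 1 / 2 * ev u (GB u x 2) →
        ev u (GB u x r₁ ∩ {p | k + h ≤ σ * u p}) ^ ((n - 2) / n : ℝ) ≤
          S * C * (h⁻¹ ^ 2 * h ^ (2 / n : ℝ) *
              ev u (GB u x r₂ ∩ {p | k ≤ σ * u p}) ^ ((n - 2) / n : ℝ)
            + (1 / (r₂ - r₁)) ^ 2 * ev u (GB u x r₂ ∩ {p | k ≤ σ * u p})) := by
  obtain ⟨c1, hc1', hc1⟩ := exists_step
  obtain ⟨c2, hc2', hc2⟩ := Pool.Agent.Helper50.CF.exists_cutoff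
  obtain ⟨Ch, hCh1, hCh⟩ := exists_holderE n
  have hc1s : 1 ≤ c1 ^ 2 := one_le_pow₀ hc1'
  refine ⟨16 * c1 ^ 2 * Ch, by nlinarith, ?_⟩
  intro u x S V hD σ hσ r₁ r₂ k h hr1 hr hr2 hh hhalf
  have hn : (3 : ℝ) ≤ n := by exact_mod_cast hD.flat.hn
  have hn0 : (0 : ℝ) < n := by linarith
  have hα0 : (0 : ℝ) ≤ (n - 2) / n := div_nonneg (by linarith) hn0.le
  have hu := hD.flat.smooth
  have hσ2 : σ ^ 2 = 1 := by rcases hσ with h1 | h1 <;> rw [h1] <;> norm_num
  obtain ⟨η, L, hηL, hηc, hη0, hη1, hηe, hηz, hηg⟩ :=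
    hD.cut (r₁ := r₁) (r₂ := r₂) (by linarith) hr (by linarith)
  obtain ⟨ρ, hρ0, hρ⟩ := hD.sub_B
  obtain ⟨χ, hχ, hχc, -, hχ0, hχ1, hχe, -⟩ := hc2 n ρ (ρ + 1) hρ0 (by linarith)
  -- sets
  set A : Set (Fin n → ℝ) := GB u x r₂ ∩ {p | k ≤ σ * u p} with hA
  set A' : Set (Fin n → ℝ) := GB u x r₂ ∩ {p | k ≤ σ * u p ∧ σ * u p ≤ k + h} with hA'
  have hmA : MeasurableSet A := (meas_GB hu x r₂).inter (meas_lev hu σ k)
  have hmA' : MeasurableSet A' := by
    have e1 : A' = GB u x r₂ ∩ ({p | k ≤ σ * u p} ∩ {p | σ * u p ≤ k + h}) := by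
      rw [hA']
      rfl
    rw [e1]
    exact (meas_GB hu x r₂).inter ((meas_lev hu σ k).inter (meas_lev2 hu σ (k + h)))
  have hA2 : A ⊆ GB u x 2 := Set.inter_subset_left.trans (GB_mono hr2.le)
  have hA4 : A ⊆ GB u x 4 := hA2.trans (GB_mono (by norm_num))
  have hA'A : A' ⊆ A := fun p hp => ⟨hp.1, hp.2.1⟩
  have hA5 : A ⊆ GB u x 5 := hA2.trans (GB_mono (by norm_num))
  -- facts on ta
  have ta0 : ∀ t, 0 ≤ Decay.ta k h t := fun t => Real.smoothTransition.nonneg _
  have ta1 : ∀ t, Decay.ta k h t ≤ 1 := fun t => Real.smoothTransition.le_one _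
  have taz : ∀ t, t ≤ k → Decay.ta k h t = 0 := fun t ht =>
    Real.smoothTransition.zero_of_nonpos (div_nonpos_of_nonpos_of_nonneg (by linarith) hh.le)
  have tao : ∀ t, k + h ≤ t → Decay.ta k h t = 1 := fun t ht =>
    Real.smoothTransition.one_of_one_le (by rw [le_div_iff₀ hh]; linarith)
  -- the test function
  have hvs : ContDiff ℝ ∞ (fun q => σ * u q) := contDiff_const.mul hu
  have hGs : ContDiff ℝ ∞ (fun q => Decay.ta k h (σ * u q)) := (Decay.ta_smooth k h).comp hvs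
  set f : (Fin n → ℝ) → ℝ := fun p => η p * Decay.ta k h (σ * u p) with hf
  have hfe : f = fun p => η p * (χ p * Decay.ta k h (σ * u p)) := by
    funext p
    simp only [hf]
    by_cases hp : p ∈ GB u x r₂
    · have h1 : p ∈ Bc n ρ := B_subset_Bc ρ (hρ (GB_mono (by linarith) hp))
      rw [hχe p h1, one_mul]
    · rw [hηz p hp, zero_mul, zero_mul]
  obtain ⟨M, hM⟩ := lip_of (hχ.mul hGs) hχc.mul_right
  have hη1' : ∀ p, |η p| ≤ 1 := fun p => by rw [abs_of_nonneg (hη0 p)]; exact hη1 p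
  have hg1' : ∀ p, |χ p * Decay.ta k h (σ * u p)| ≤ 1 := fun p => by
    rw [abs_of_nonneg (mul_nonneg (hχ0 p) (ta0 _))]
    exact mul_le_one₀ (hχ1 p) (ta0 _) (ta1 _)
  have hfL : LipschitzWith (M + L) f := by
    rw [hfe]
    exact lip_mul_one hηL hM hη1' hg1'
  have hfc : HasCompactSupport f := hηc.mul_right
  have hf0 : ∀ p, 0 ≤ f p := fun p => mul_nonneg (hη0 p) (ta0 _)
  have hfz : ∀ p, p ∉ A → f p = 0 := by
    intro p hp
    simp only [hf]
    by_cases h1 : p ∈ GB u x r₂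
    · have h2 : σ * u p ≤ k := by
        by_contra h3
        exact hp ⟨h1, (not_le.mp h3).le⟩
      rw [taz _ h2, mul_zero]
    · rw [hηz p h1, zero_mul]
  have key := small_sob hD hfL hfc hmA hA2 (fun p _ hp => hfz p hp) hhalf
  -- left side
  have hL : ev u (GB u x r₁ ∩ {p | k + h ≤ σ * u p}) ≤
      ∫ p in GB u x 2, |f p| ^ (2 * n / (n - 2) : ℝ) * Real.exp (n * u p) := by
    have hq : (0 : ℝ) < 2 * n / (n - 2) := div_pos (by linarith) (by linarith)
    have hcont : Continuous fun p => |f p| ^ (2 * n / (n - 2) : ℝ) * Real.exp (n * u p) :=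
      ((hfL.continuous.abs).rpow_const fun p => Or.inr hq.le).mul (hD.cont_e n)
    have hm : MeasurableSet (GB u x r₁ ∩ {p | k + h ≤ σ * u p}) :=
      (meas_GB hu x r₁).inter (meas_lev hu σ (k + h))
    have e1 : ev u (GB u x r₁ ∩ {p | k + h ≤ σ * u p}) =
        ∫ p in GB u x r₁ ∩ {p | k + h ≤ σ * u p},
          |f p| ^ (2 * n / (n - 2) : ℝ) * Real.exp (n * u p) := by
      unfold ev
      refine setIntegral_congr_fun hm fun p hp => ?_
      have h3 : f p = 1 := by
        simp only [hf]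
        rw [hηe p hp.1, tao _ hp.2, one_mul]
      simp only [h3, abs_one, Real.one_rpow, one_mul]
    rw [e1]
    exact setIntegral_mono_set (hD.int hcont (GB_mono (by norm_num)))
      (Eventually.of_forall fun p => mul_nonneg (Real.rpow_nonneg (abs_nonneg _) _)
        (Real.exp_pos _).le)
      (Eventually.of_forall (Set.inter_subset_left.trans (GB_mono (by linarith))))
  refine (Real.rpow_le_rpow (ev_nonneg u _) hL hα0).trans (key.trans ?_)
  -- the bound of the gradient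
  have hpt : ∀ᵐ p, gs f p * Real.exp ((n - 2) * u p) ≤
      2 * (c1 / h) ^ 2 * (A'.indicator (fun p => gs u p * Real.exp ((n - 2) * u p)) p) +
        2 * (1 / (r₂ - r₁)) ^ 2 * (A.indicator (fun p => Real.exp (n * u p)) p) := by
    filter_upwards [hηg, hηL.ae_differentiableAt] with p hp1 hp2
    by_cases hpA : p ∈ A
    swap
    · have h1 : gs f p = 0 := by
        unfold gs
        refine Finset.sum_eq_zero fun i _ => ?_
        rw [pd_zero_of_nonneg hf0 (hfz p hpA) i]
        norm_num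
      rw [h1, zero_mul, Set.indicator_of_notMem hpA,
        Set.indicator_of_notMem (fun h2 => hpA (hA'A h2)), mul_zero, mul_zero, add_zero]
    rw [Set.indicator_of_mem hpA]
    have hE : 0 < Real.exp ((n - 2) * u p) := Real.exp_pos _
    set t' : ℝ := deriv Real.smoothTransition ((σ * u p - k) / h) * (1 / h) with ht'
    have hdu : DifferentiableAt ℝ u p := diff_of_smooth hu.contDiffAt
    have hdv : DifferentiableAt ℝ (fun q => σ * u q) p := diff_of_smooth hvs.contDiffAt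
    have e3 : ∀ i, pd i f p = pd i η p * Decay.ta k h (σ * u p) + η p * (t' * (σ * pd i u p)) := by
      intro i
      have h4 := Decay.pd_comp (u := fun q => σ * u q) (Decay.ta_deriv k h (σ * u p)) hdv i
      have h5 := pd_mul (f := η) (h := fun q => Decay.ta k h (σ * u q)) (p := p)
        hp2 (diff_of_smooth hGs.contDiffAt) i
      rw [h4, pd_const_mul σ hdu] at h5
      exact h5
    have e4 : ∀ i, pd i f p ^ 2 ≤ 2 * pd i η p ^ 2 + 2 * (t' ^ 2 * pd i u p ^ 2) := by
      intro i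
      rw [e3 i]
      have a0 := ta0 (σ * u p)
      have a1 := ta1 (σ * u p)
      have b0 := hη0 p
      have b1 := hη1 p
      have s1 : (pd i η p * Decay.ta k h (σ * u p)) ^ 2 ≤ pd i η p ^ 2 := by
        rw [mul_pow]
        have : Decay.ta k h (σ * u p) ^ 2 ≤ 1 := by nlinarith
        nlinarith [sq_nonneg (pd i η p)]
      have s2 : (η p * (t' * (σ * pd i u p))) ^ 2 ≤ t' ^ 2 * pd i u p ^ 2 := by
        have e20 : (η p * (t' * (σ * pd i u p))) ^ 2 = η p ^ 2 * (t' ^ 2 * pd i u p ^ 2) := by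
          calc _ = η p ^ 2 * (t' ^ 2 * (σ ^ 2 * pd i u p ^ 2)) := by ring
            _ = _ := by rw [hσ2, one_mul]
        rw [e20]
        have : η p ^ 2 ≤ 1 := by nlinarith
        nlinarith [mul_nonneg (sq_nonneg t') (sq_nonneg (pd i u p))]
      nlinarith [sq_nonneg (pd i η p * Decay.ta k h (σ * u p) - η p * (t' * (σ * pd i u p)))]
    have e5 : gs f p ≤ 2 * gs η p + 2 * (t' ^ 2 * gs u p) := by
      unfold gs
      rw [Finset.mul_sum, Finset.mul_sum, Finset.mul_sum, ← Finset.sum_add_distrib]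
      exact Finset.sum_le_sum fun i _ => e4 i
    have e6 : gs η p * Real.exp ((n - 2) * u p) ≤ (1 / (r₂ - r₁)) ^ 2 * Real.exp (n * u p) := by
      have e7 : Real.exp (n * u p) = Real.exp (2 * u p) * Real.exp ((n - 2) * u p) := by
        rw [← Real.exp_add]
        congr 1
        ring
      rw [e7]
      have := mul_le_mul_of_nonneg_right hp1 hE.le
      linarith [this]
    have e8 : t' ^ 2 * gs u p * Real.exp ((n - 2) * u p) ≤
        (c1 / h) ^ 2 * (A'.indicator (fun p => gs u p * Real.exp ((n - 2) * u p)) p) := by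
      by_cases hp' : p ∈ A'
      · rw [Set.indicator_of_mem hp']
        have s3 : t' ^ 2 ≤ (c1 / h) ^ 2 := by
          rw [ht', mul_one_div, div_pow, div_pow]
          refine div_le_div_of_nonneg_right ?_ (sq_nonneg h)
          have s4 := hc1 ((σ * u p - k) / h)
          calc _ = |deriv Real.smoothTransition ((σ * u p - k) / h)| ^ 2 := (sq_abs _).symm
            _ ≤ c1 ^ 2 := pow_le_pow_left₀ (abs_nonneg _) s4 2
        have s5 : 0 ≤ gs u p * Real.exp ((n - 2) * u p) := mul_nonneg (gs_nonneg u p) hE.le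
        nlinarith [mul_le_mul_of_nonneg_right s3 s5]
      · rw [Set.indicator_of_notMem hp', mul_zero]
        have s6 : k + h < σ * u p := by
          by_contra s7
          exact hp' ⟨hpA.1, hpA.2, not_lt.mp s7⟩
        have s8 : t' = 0 := by
          rw [ht', Decay.deriv_step_zero, zero_mul]
          rw [lt_div_iff₀ hh]
          linarith
        rw [s8]
        simp
    calc gs f p * Real.exp ((n - 2) * u p)
        ≤ (2 * gs η p + 2 * (t' ^ 2 * gs u p)) * Real.exp ((n - 2) * u p) :=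
          mul_le_mul_of_nonneg_right e5 hE.le
      _ = 2 * (gs η p * Real.exp ((n - 2) * u p)) +
          2 * (t' ^ 2 * gs u p * Real.exp ((n - 2) * u p)) := by ring
      _ ≤ 2 * ((1 / (r₂ - r₁)) ^ 2 * Real.exp (n * u p)) + 2 * ((c1 / h) ^ 2 *
          (A'.indicator (fun p => gs u p * Real.exp ((n - 2) * u p)) p)) := by
          linarith
      _ = _ := by ring
  have cgsE : Continuous fun p => gs u p * Real.exp ((n - 2) * u p) :=
    (cont_gs hu).mul (hD.cont_e (n - 2))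
  have h45 : GB u x 4 ⊆ GB u x 5 := GB_mono (by norm_num)
  have i2 : IntegrableOn (fun p => gs u p * Real.exp ((n - 2) * u p)) (GB u x 4) :=
    hD.int cgsE h45
  have i3 : IntegrableOn (fun p => Real.exp (n * u p)) (GB u x 4) := hD.int (hD.cont_e n) h45
  have i4 : IntegrableOn (A'.indicator fun p => gs u p * Real.exp ((n - 2) * u p)) (GB u x 4) :=
    Integrable.indicator i2 hmA'
  have i5 : IntegrableOn (A.indicator fun p => Real.exp (n * u p)) (GB u x 4) :=
    Integrable.indicator i3 hmA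
  have e9 : ∫ p in GB u x 4, gs f p * Real.exp ((n - 2) * u p) ≤
      2 * (c1 / h) ^ 2 * (∫ p in A', gs u p * Real.exp ((n - 2) * u p)) +
        2 * (1 / (r₂ - r₁)) ^ 2 * ev u A := by
    calc ∫ p in GB u x 4, gs f p * Real.exp ((n - 2) * u p)
        ≤ ∫ p in GB u x 4, (2 * (c1 / h) ^ 2 *
            (A'.indicator (fun p => gs u p * Real.exp ((n - 2) * u p)) p) +
          2 * (1 / (r₂ - r₁)) ^ 2 * (A.indicator (fun p => Real.exp (n * u p)) p)) := by
          refine integral_mono_of_nonneg (Eventually.of_forall fun p =>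
            mul_nonneg (gs_nonneg f p) (Real.exp_pos _).le) ?_ (ae_restrict_of_ae hpt)
          exact (i4.const_mul (2 * (c1 / h) ^ 2)).add (i5.const_mul (2 * (1 / (r₂ - r₁)) ^ 2))
      _ = 2 * (c1 / h) ^ 2 * (∫ p in GB u x 4,
            (A'.indicator (fun p => gs u p * Real.exp ((n - 2) * u p)) p)) +
          2 * (1 / (r₂ - r₁)) ^ 2 * ∫ p in GB u x 4,
            (A.indicator (fun p => Real.exp (n * u p)) p) := by
          rw [integral_add (i4.const_mul _) (i5.const_mul _), integral_const_mul,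
            integral_const_mul]
      _ = _ := by
          rw [setIntegral_indicator hmA', setIntegral_indicator hmA,
            Set.inter_eq_self_of_subset_right (hA'A.trans hA4),
            Set.inter_eq_self_of_subset_right hA4]
          rfl
  -- Hoelder
  have e10 := hCh hD hσ (A := GB u x r₂) (GB_mono (by linarith)) (meas_GB hu x r₂) k h hh
  have e11 : ev u A' ≤ ev u A := hD.ev_mono hA'A hA5
  have e12 : ev u A' ^ ((n - 2) / n : ℝ) ≤ ev u A ^ ((n - 2) / n : ℝ) :=
    Real.rpow_le_rpow (ev_nonneg u _) e11 hα0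
  have e13 : (Ch * h) ^ (2 / n : ℝ) ≤ Ch * h ^ (2 / n : ℝ) := by
    rw [Real.mul_rpow (by linarith) hh.le]
    refine mul_le_mul_of_nonneg_right ?_ (Real.rpow_nonneg hh.le _)
    calc Ch ^ (2 / n : ℝ) ≤ Ch ^ (1 : ℝ) := by
          refine Real.rpow_le_rpow_of_exponent_le hCh1 ?_
          rw [div_le_one hn0]
          linarith
      _ = Ch := Real.rpow_one _
  have e14 : ∫ p in A', gs u p * Real.exp ((n - 2) * u p) ≤
      Ch * h ^ (2 / n : ℝ) * ev u A ^ ((n - 2) / n : ℝ) := by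
    refine e10.trans ?_
    exact mul_le_mul e13 e12 (Real.rpow_nonneg (ev_nonneg u _) _)
      (mul_nonneg (by linarith) (Real.rpow_nonneg hh.le _))
  have hS0 : 0 ≤ S := by linarith [hD.hS]
  have e15 : ∫ p in GB u x 4, gs f p * Real.exp ((n - 2) * u p) ≤
      2 * (c1 / h) ^ 2 * (Ch * h ^ (2 / n : ℝ) * ev u A ^ ((n - 2) / n : ℝ)) +
        2 * (1 / (r₂ - r₁)) ^ 2 * ev u A := by
    refine e9.trans ?_
    have := mul_le_mul_of_nonneg_left e14 (by positivity : (0 : ℝ) ≤ 2 * (c1 / h) ^ 2)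
    linarith
  have e16 : 0 ≤ (1 / (r₂ - r₁)) ^ 2 * ev u A := mul_nonneg (sq_nonneg _) (ev_nonneg u _)
  have e17 : 1 ≤ c1 ^ 2 * Ch := by nlinarith
  calc 8 * S * ∫ p in GB u x 4, gs f p * Real.exp ((n - 2) * u p)
      ≤ 8 * S * (2 * (c1 / h) ^ 2 * (Ch * h ^ (2 / n : ℝ) * ev u A ^ ((n - 2) / n : ℝ)) +
        2 * (1 / (r₂ - r₁)) ^ 2 * ev u A) := mul_le_mul_of_nonneg_left e15 (by linarith)
    _ = 16 * S * (c1 ^ 2 * Ch * (h⁻¹ ^ 2 * h ^ (2 / n : ℝ) * ev u A ^ ((n - 2) / n : ℝ)) +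
        (1 / (r₂ - r₁)) ^ 2 * ev u A) := by
          rw [div_pow]
          field_simp
          ring
    _ ≤ 16 * S * (c1 ^ 2 * Ch * (h⁻¹ ^ 2 * h ^ (2 / n : ℝ) * ev u A ^ ((n - 2) / n : ℝ)) +
        c1 ^ 2 * Ch * ((1 / (r₂ - r₁)) ^ 2 * ev u A)) := by
          refine mul_le_mul_of_nonneg_left ?_ (by linarith)
          nlinarith
    _ = _ := by ring

end

end Pool.Agent.Helper50.CE
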