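import Pool.Agent.Helper50.CE.Basic
import Pool.Agent.Helper50.CF.Test

/-! # CE-1: the weak form on `ℝⁿ`, `lam = 0` (port of `CF/Test.lean`)

PROOF as in `CF/Test.lean` with `Ω = univ`, `lam = 0`; only `hn`, `smooth`, `P1`, `P2` are used
(`div_x`, `smooth_x`, `div_le` with `E = 0`). The private lemmas of `CF/Test.lean` can be copied. -/

namespace Pool.Agent.Helper50.CE

open scoped ContDiff Topology NNReal
open Pool.Agent.Helper49.Ric Pool.Agent.Helper73.HB Pool.Agent.Helper50.CF MeasureTheory Filter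

noncomputable section

variable {n : ℕ} {S V : ℝ} {u : (Fin n → ℝ) → ℝ} {x : Fin n → ℝ}

private theorem cont_wE {p : Fin n → ℝ} (hu : ContDiffAt ℝ ∞ u p) (ε : ℝ) (s : ℕ) :
    ContinuousAt (fun q => Real.sqrt (gs u q + ε) ^ s) p :=
  (((continuousAt_gs hu).add continuousAt_const).sqrt).pow s

/-- the limit `ε → 0` in one of the integrals -/
private theorem tendsto_testE (hu : ContDiff ℝ ∞ u)
    {φ F : (Fin n → ℝ) → ℝ} (hφ : Continuous φ) (hc : HasCompactSupport φ)
    (hF : ∀ p, ContinuousAt F p) (s : ℕ) :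
    Tendsto (fun k : ℕ => ∫ p, φ p * (Real.sqrt (gs u p + 1 / ((k : ℝ) + 1)) ^ s * F p)) atTop
      (𝓝 (∫ p, φ p * (gr u p ^ s * F p))) := by
  have hint : ∀ ε : ℝ, Integrable (fun p => φ p * (Real.sqrt (gs u p + ε) ^ s * F p)) := fun ε =>
    integrable_mul_of hφ hc fun p _ => (cont_wE hu.contDiffAt ε s).mul (hF p)
  refine tendsto_integral_of_dominated_convergence
    (fun p => ‖φ p * (Real.sqrt (gs u p + 1) ^ s * F p)‖)
    (fun k => (hint _).aestronglyMeasurable) (hint 1).norm ?_ ?_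
  · intro k
    refine Eventually.of_forall fun p => ?_
    rw [norm_mul, norm_mul, norm_mul, norm_mul]
    refine mul_le_mul_of_nonneg_left ?_ (norm_nonneg _)
    refine mul_le_mul_of_nonneg_right ?_ (norm_nonneg _)
    rw [Real.norm_of_nonneg (pow_nonneg (Real.sqrt_nonneg _) s),
      Real.norm_of_nonneg (pow_nonneg (Real.sqrt_nonneg _) s)]
    refine pow_le_pow_left₀ (Real.sqrt_nonneg _) (Real.sqrt_le_sqrt ?_) s
    have h1 : 1 / ((k : ℝ) + 1) ≤ 1 := by
      rw [div_le_one (by positivity)]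
      linarith [(Nat.cast_nonneg k : (0 : ℝ) ≤ k)]
    linarith
  · refine Eventually.of_forall fun p => ?_
    have h1 : Tendsto (fun k : ℕ => gs u p + 1 / ((k : ℝ) + 1)) atTop (𝓝 (gs u p)) := by
      simpa using (tendsto_const_nhds (x := gs u p)).add
        (tendsto_one_div_add_atTop_nhds_zero_nat (𝕜 := ℝ))
    have h2 : Tendsto (fun k : ℕ => Real.sqrt (gs u p + 1 / ((k : ℝ) + 1))) atTop
        (𝓝 (gr u p)) := (Real.continuous_sqrt.tendsto _).comp h1
    exact ((h2.pow s).mul_const (F p)).const_mul (φ p)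

private theorem cont_pdE {ψ : (Fin n → ℝ) → ℝ} (hψ : ContDiff ℝ ∞ ψ) (i : Fin n) :
    Continuous (pd i ψ) :=
  continuous_iff_continuousAt.mpr fun _ => (smooth_pd hψ.contDiffAt i).continuousAt

private theorem tsupport_pdE (ψ : (Fin n → ℝ) → ℝ) (i : Fin n) :
    tsupport (pd i ψ) ⊆ tsupport ψ := by
  refine closure_minimal ?_ (isClosed_tsupport ψ)
  intro p hp
  by_contra h1
  exact hp (pd_zero_off h1 i)

/-- the inequality before the limit -/
private theorem test_epsE (h : Flat n u) {s : ℕ} (hs : s + 2 ≤ n)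
    {ψ : (Fin n → ℝ) → ℝ} (hψ : ContDiff ℝ ∞ ψ) (hc : HasCompactSupport ψ)
    (h0 : ∀ p, 0 ≤ ψ p) {ε : ℝ} (hε : 0 < ε) :
    (((n : ℝ) - 2 - s) / 2) * ∫ p, ψ p * (Real.sqrt (gs u p + ε) ^ s * gs u p) ≤
      ∑ i, ∫ p, pd i ψ p * (Real.sqrt (gs u p + ε) ^ s * pd i u p) := by
  obtain ⟨D, hD⟩ := lip_of hψ hc
  have hsub : tsupport ψ ⊆ Set.univ := Set.subset_univ _
  have hX : ∀ p i, ContDiffAt ℝ ∞ (fun q => Real.sqrt (gs u q + ε) ^ s * pd i u q) p :=
    fun p i => smooth_x h.smooth.contDiffAt hε s i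
  have h1 : ∀ i, ∫ p, ψ p * pd i (fun q => Real.sqrt (gs u q + ε) ^ s * pd i u q) p =
      - ∫ p, pd i ψ p * (Real.sqrt (gs u p + ε) ^ s * pd i u p) := fun i =>
    ibp isOpen_univ hD hc hsub (fun p _ => (hX p i).of_le (by exact_mod_cast le_top)) i
  have i1 : ∀ i, Integrable
      (fun p => ψ p * pd i (fun q => Real.sqrt (gs u q + ε) ^ s * pd i u q) p) := fun i =>
    integrable_mul hD hc hsub fun p _ => (smooth_pd (hX p i) i).continuousAt
  have i2 : Integrable (fun p => ψ p * (Real.sqrt (gs u p + ε) ^ s * gs u p)) :=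
    integrable_mul_of hψ.continuous hc fun p _ =>
      (cont_wE h.smooth.contDiffAt ε s).mul (continuousAt_gs h.smooth.contDiffAt)
  have h2 : ∫ p, ∑ i, ψ p * pd i (fun q => Real.sqrt (gs u q + ε) ^ s * pd i u q) p =
      - ∑ i, ∫ p, pd i ψ p * (Real.sqrt (gs u p + ε) ^ s * pd i u p) := by
    rw [integral_finsetSum _ fun i _ => i1 i, ← Finset.sum_neg_distrib]
    exact Finset.sum_congr rfl fun i _ => h1 i
  have h3 : ∫ p, ∑ i, ψ p * pd i (fun q => Real.sqrt (gs u q + ε) ^ s * pd i u q) p ≤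
      ∫ p, -(((n : ℝ) - 2 - s) / 2) * (ψ p * (Real.sqrt (gs u p + ε) ^ s * gs u p)) := by
    refine integral_mono (integrable_finsetSum _ fun i _ => i1 i) (i2.const_mul _) ?_
    intro p
    dsimp only
    rw [← Finset.mul_sum, div_x h.smooth.contDiffAt hε s]
    have e1 := div_le h.hn hs (E := 0) hε (gs_nonneg u p) le_rfl
      (by simpa using h.P1 p) (by simpa using h.P2 p)
    have e2 : 0 ≤ ψ p * Real.sqrt (gs u p + ε) ^ s :=
      mul_nonneg (h0 p) (pow_nonneg (Real.sqrt_nonneg _) s)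
    have e3 := mul_le_mul_of_nonneg_left e1 e2
    calc ψ p * (Real.sqrt (gs u p + ε) ^ s * (lp u p + s * hq u p / (gs u p + ε)))
        = ψ p * Real.sqrt (gs u p + ε) ^ s * (lp u p + s * hq u p / (gs u p + ε)) := by ring
      _ ≤ ψ p * Real.sqrt (gs u p + ε) ^ s * (-(((n : ℝ) - 2 - s) / 2) * gs u p + 0) := e3
      _ = _ := by ring
  rw [h2, integral_const_mul] at h3
  linarith

theorem testE (h : Flat n u) {s : ℕ} (hs : s + 2 ≤ n) {ψ : (Fin n → ℝ) → ℝ}
    (hψ : ContDiff ℝ ∞ ψ) (hc : HasCompactSupport ψ) (h0 : ∀ p, 0 ≤ ψ p) :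
    (((n : ℝ) - 2 - s) / 2) * ∫ p, ψ p * gr u p ^ (s + 2) ≤
      ∫ p, gr u p ^ s * ∑ i, pd i ψ p * pd i u p := by
  have hci : ∀ i, HasCompactSupport (pd i ψ) := fun i =>
    IsCompact.of_isClosed_subset hc (isClosed_tsupport _) (tsupport_pdE ψ i)
  have t1 := tendsto_testE h.smooth hψ.continuous hc
    (fun p => continuousAt_gs (h.smooth.contDiffAt (x := p))) s
  have t2 : ∀ i, _ := fun i => tendsto_testE h.smooth (cont_pdE hψ i) (hci i)
    (fun p => (smooth_pd (h.smooth.contDiffAt (x := p)) i).continuousAt) s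
  have t4 := le_of_tendsto_of_tendsto' (t1.const_mul (((n : ℝ) - 2 - s) / 2))
    (tendsto_finsetSum Finset.univ fun i _ => t2 i)
    (fun k => test_epsE h hs hψ hc h0 (by positivity : (0 : ℝ) < 1 / ((k : ℝ) + 1)))
  have e1 : ∀ p, ψ p * (gr u p ^ s * gs u p) = ψ p * gr u p ^ (s + 2) := by
    intro p
    rw [pow_add, gr_sq]
  have e2 : ∑ i, ∫ p, pd i ψ p * (gr u p ^ s * pd i u p) =
      ∫ p, gr u p ^ s * ∑ i, pd i ψ p * pd i u p := by
    rw [← integral_finsetSum]
    · congr 1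
      funext p
      rw [Finset.mul_sum]
      exact Finset.sum_congr rfl fun i _ => by ring
    · intro i _
      exact integrable_mul_of (cont_pdE hψ i) (hci i) fun p _ =>
        ((continuousAt_gr (h.smooth.contDiffAt (x := p))).pow s).mul
          (smooth_pd (h.smooth.contDiffAt (x := p)) i).continuousAt
  simp only [e1, e2] at t4
  exact t4

end

end Pool.Agent.Helper50.CE
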